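import Mathlib

/-!
# Determinants of a principal block
-/

set_option autoImplicit false

open Matrix Finset

namespace Pool.Agent.MP_d1728b_an.HL

lemma det_between {ι : Type*} [Fintype ι] [DecidableEq ι] {S : Matrix ι ι ℝ}
    (hS : (S - 1).PosSemidef) :
    1 ≤ S.det ∧ S.det ≤ S.trace ^ Fintype.card ι := by
  have hH : S.IsHermitian := by
    have h1 := hS.1.add (isHermitian_one (n := ι) (α := ℝ))
    rwa [sub_add_cancel] at h1
  have hge : ∀ i, 1 ≤ hH.eigenvalues i := by
    intro i
    have h1 := hH.eigenvalues_eq i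
    have h2 := hS.dotProduct_mulVec_nonneg (WithLp.ofLp (hH.eigenvectorBasis i))
    rw [sub_mulVec, one_mulVec, dotProduct_sub] at h2
    have h3 : star (WithLp.ofLp (hH.eigenvectorBasis i)) ⬝ᵥ (WithLp.ofLp (hH.eigenvectorBasis i)) =
        (1 : ℝ) := by
      have := hH.eigenvectorBasis.orthonormal.1 i
      rw [EuclideanSpace.norm_eq, Real.sqrt_eq_one] at this
      rw [← this]
      simp only [dotProduct, star_trivial, Pi.star_apply, Real.norm_eq_abs, sq_abs]
      exact Finset.sum_congr rfl fun x _ => (sq _).symm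
    rw [h3] at h2
    rw [h1]
    simp only [RCLike.re_to_real]
    linarith
  have hdet : S.det = ∏ i, hH.eigenvalues i := by
    have := hH.det_eq_prod_eigenvalues
    simpa using this
  have htr : S.trace = ∑ i, hH.eigenvalues i := by
    have := hH.trace_eq_sum_eigenvalues
    simpa using this
  constructor
  · rw [hdet]
    exact Finset.one_le_prod fun i _ => hge i
  · rw [hdet, htr, ← Finset.card_univ, ← Finset.prod_const]
    refine Finset.prod_le_prod (fun i _ => (zero_le_one.trans (hge i))) fun i _ => ?_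
    exact Finset.single_le_sum (f := hH.eigenvalues) (fun j _ => zero_le_one.trans (hge j))
      (Finset.mem_univ i)

lemma det_block {m n : Type*} [Fintype m] [Fintype n] [DecidableEq m] [DecidableEq n]
    {A : Matrix m m ℝ} {B : Matrix m n ℝ} {D : Matrix n n ℝ}
    (h : (fromBlocks A B Bᵀ D - 1).PosSemidef) :
    0 < A.det ∧ A.det ≤ (fromBlocks A B Bᵀ D).det ∧
      (fromBlocks A B Bᵀ D).det ≤ A.det * D.trace ^ Fintype.card n := by
  have hA1 : (A - 1).PosSemidef := by
    have h1 := h.submatrix (Sum.inl : m → m ⊕ n)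
    convert h1 using 1
    ext i j
    simp [Matrix.one_apply]
  have hA : A.PosDef := by
    have h1 := (PosDef.one (n := m) (R := ℝ)).add_posSemidef hA1
    rwa [add_sub_cancel] at h1
  have hdetA : 0 < A.det := hA.det_pos
  have : Invertible A := A.invertibleOfIsUnitDet (isUnit_iff_ne_zero.mpr hdetA.ne')
  have hBt : Bᴴ = Bᵀ := by
    ext i j; simp
  have hbig : (fromBlocks A B Bᴴ (D - 1)).PosSemidef := by
    have h2 : (fromBlocks (1 : Matrix m m ℝ) 0 0 (0 : Matrix n n ℝ)).PosSemidef := by
      have : fromBlocks (1 : Matrix m m ℝ) 0 0 (0 : Matrix n n ℝ) =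
          diagonal (Sum.elim (fun _ => 1) (fun _ => 0)) := by
        ext i j
        rcases i with i | i <;> rcases j with j | j <;> simp [Matrix.one_apply, diagonal_apply]
      rw [this]
      apply PosSemidef.diagonal
      intro i
      rcases i with i | i <;> simp
    have h3 := h.add h2
    convert h3 using 1
    rw [hBt]
    ext i j
    rcases i with i | i <;> rcases j with j | j <;> simp [Matrix.one_apply]
  have hS1 : (D - 1 - Bᴴ * A⁻¹ * B).PosSemidef := (hA.fromBlocks₁₁ B (D - 1)).mp hbig
  rw [hBt] at hS1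
  set S := D - Bᵀ * A⁻¹ * B with hSdef
  have hS : (S - 1).PosSemidef := by
    have : S - 1 = D - 1 - Bᵀ * A⁻¹ * B := by rw [hSdef]; abel
    rw [this]; exact hS1
  obtain ⟨k1, k2⟩ := det_between hS
  have hdet : (fromBlocks A B Bᵀ D).det = A.det * S.det := by
    rw [det_fromBlocks₁₁, invOf_eq_nonsing_inv]
  have htr : S.trace ≤ D.trace := by
    have h4 : (Bᵀ * A⁻¹ * B).PosSemidef := by
      have := hA.inv.posSemidef.conjTranspose_mul_mul_same B
      rwa [hBt] at this
    rw [hSdef, trace_sub]
    have := h4.trace_nonneg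
    linarith
  have htr0 : 0 ≤ S.trace := by
    have h5 : (0 : ℝ) ≤ (S - 1).trace := hS.trace_nonneg
    rw [trace_sub, trace_one] at h5
    have : (0 : ℝ) ≤ Fintype.card n := by positivity
    linarith
  refine ⟨hdetA, ?_, ?_⟩
  · rw [hdet]
    nlinarith
  · rw [hdet]
    exact mul_le_mul_of_nonneg_left (k2.trans (pow_le_pow_left₀ htr0 htr _)) hdetA.le

end Pool.Agent.MP_d1728b_an.HL
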