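import Pool.Agent.Lib.MP_d1728b_an.HL.Main

/-!
# Analytic minorants on the polydisc give the logarithmic inequality for every set

`Fx N x = 1 + x₀ + x₀ x₁ + ... + x₀ ⋯ x_{N-2}`.  If polynomials `f k` satisfy
`∑ k ‖f k (x)‖² ≤ 1 + s ‖Fx N x‖²` on the torus then for every set `A` of `N` integers
`log ∑ k ‖f k (0)‖² ≤ ∫ log (1 + s ‖F_A‖²)`.
-/

set_option autoImplicit false

open Finset Filter Topology MeasureTheory
open Pool.Agent.Littlewood

namespace Pool.Agent.MP_d1728b_an.HL

/-- the chain sum `1 + x₀ + x₀ x₁ + ...` (`N` terms) -/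
noncomputable def Fx (N : ℕ) (x : ℕ → ℂ) : ℂ := ∑ j ∈ range N, ∏ i ∈ range j, x i

private lemma circleMap_eq (x : ℝ) : circleMap 0 1 ((2 * Real.pi) * x) = E 1 x := by
  unfold circleMap E
  rw [zero_add, Complex.ofReal_one, one_mul]
  congr 1
  push_cast
  ring

private lemma circleAverage_eq (g : ℂ → ℝ) :
    Real.circleAverage g 0 1 = ∫ x in (0:ℝ)..1, g (E 1 x) := by
  have h := intervalIntegral.integral_comp_mul_left (a := 0) (b := 1)
    (fun θ => g (circleMap 0 1 θ)) (c := 2 * Real.pi) (by positivity)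
  rw [mul_zero, mul_one] at h
  rw [Real.circleAverage_def, ← h]
  refine intervalIntegral.integral_congr fun x _ => ?_
  simp only [circleMap_eq]

lemma intervalIntegrable_log_poly (p : Polynomial ℂ) :
    IntervalIntegrable (fun x : ℝ => Real.log ‖p.eval (E 1 x)‖) volume 0 1 := by
  have h := (Polynomial.intervalIntegrable_mahlerMeasure (p := p)).comp_mul_left
    (c := 2 * Real.pi)
  rw [zero_div, div_self (by positivity)] at h
  refine h.congr ?_
  intro x _
  simp only [circleMap_eq]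

/-- Jensen's inequality for polynomials -/
lemma jensen_poly (p : Polynomial ℂ) (hp : p.eval 0 ≠ 0) :
    Real.log ‖p.eval 0‖ ≤ ∫ x in (0:ℝ)..1, Real.log ‖p.eval (E 1 x)‖ := by
  have han : AnalyticOnNhd ℂ (fun z => p.eval z) (Metric.closedBall 0 |1|) :=
    fun z _ => (analyticOnNhd_id.aeval_polynomial p) z (Set.mem_univ z)
  have h := han.circleAverage_log_norm one_ne_zero hp
  rw [circleAverage_eq] at h
  rw [h]
  have hnn : 0 ≤ ∑ᶠ u, ((MeromorphicOn.divisor (fun z => p.eval z) (Metric.closedBall 0 |1|)) u : ℝ) *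
      Real.log (1 * ‖(0:ℂ) - u‖⁻¹) := by
    refine finsum_nonneg fun u => ?_
    by_cases hu : u ∈ Metric.closedBall (0:ℂ) |1|
    · refine mul_nonneg ?_ ?_
      · have := MeromorphicOn.AnalyticOnNhd.divisor_nonneg han u
        exact_mod_cast this
      · rw [one_mul, zero_sub, norm_neg]
        rw [mem_closedBall_zero_iff, abs_one] at hu
        rcases eq_or_ne u 0 with rfl | h0
        · simp
        · exact Real.log_nonneg ((one_le_inv₀ (norm_pos_iff.2 h0)).2 hu)
    · have : (MeromorphicOn.divisor (fun z => p.eval z) (Metric.closedBall 0 |1|)) u = 0 :=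
        Function.locallyFinsuppWithin.apply_eq_zero_of_notMem _ hu
      rw [this]
      simp
  linarith

/-- vector valued Jensen inequality against a weight `w ≥ 1` -/
lemma jensen_vec {ι : Type} (K : Finset ι) (p : ι → Polynomial ℂ) (w : ℝ → ℝ)
    (hw : Continuous w) (hw1 : ∀ x, 1 ≤ w x)
    (h : ∀ x : ℝ, ∑ k ∈ K, ‖(p k).eval (E 1 x)‖ ^ 2 ≤ w x) :
    Real.log (∑ k ∈ K, ‖(p k).eval 0‖ ^ 2) ≤ ∫ x in (0:ℝ)..1, Real.log (w x) := by
  have hlog : Continuous fun x => Real.log (w x) :=
    Continuous.log hw fun x => by have := hw1 x; positivity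
  set C2 : ℝ := ∑ k ∈ K, ‖(p k).eval 0‖ ^ 2 with hC2
  have hC0 : 0 ≤ C2 := Finset.sum_nonneg fun k _ => by positivity
  rcases eq_or_lt_of_le hC0 with h0 | hpos
  · rw [← h0, Real.log_zero]
    exact intervalIntegral.integral_nonneg zero_le_one fun x _ => Real.log_nonneg (hw1 x)
  set C : ℝ := Real.sqrt C2 with hC
  have hCpos : 0 < C := Real.sqrt_pos.2 hpos
  have hCC : C * C = C2 := Real.mul_self_sqrt hC0
  set X : Polynomial ℂ := ∑ k ∈ K, Polynomial.C ((starRingEnd ℂ) ((p k).eval 0) / C) * p k with hX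
  have hXe : ∀ z, X.eval z = ∑ k ∈ K, ((starRingEnd ℂ) ((p k).eval 0) / C) * (p k).eval z := by
    intro z
    rw [hX, Polynomial.eval_finsetSum]
    simp
  have hX0 : X.eval 0 = C := by
    rw [hXe]
    have : ∀ k ∈ K, ((starRingEnd ℂ) ((p k).eval 0) / C) * (p k).eval 0 =
        ((‖(p k).eval 0‖ ^ 2 : ℝ) : ℂ) / C := by
      intro k _
      rw [div_mul_eq_mul_div, ← Complex.normSq_eq_conj_mul_self, Complex.normSq_eq_norm_sq]
    rw [Finset.sum_congr rfl this, ← Finset.sum_div, ← Complex.ofReal_sum, ← hC2, ← hCC]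
    push_cast
    field_simp
  have hbound : ∀ x : ℝ, ‖X.eval (E 1 x)‖ ^ 2 ≤ w x := by
    intro x
    refine le_trans ?_ (h x)
    have h1 : ‖X.eval (E 1 x)‖ ≤ ∑ k ∈ K, (‖(p k).eval 0‖ / C) * ‖(p k).eval (E 1 x)‖ := by
      rw [hXe]
      refine (norm_sum_le _ _).trans (Finset.sum_le_sum fun k _ => ?_)
      rw [norm_mul, norm_div, RCLike.norm_conj, Complex.norm_real, Real.norm_eq_abs,
        abs_of_pos hCpos]
    have h2 : (∑ k ∈ K, (‖(p k).eval 0‖ / C) * ‖(p k).eval (E 1 x)‖) ^ 2 ≤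
        (∑ k ∈ K, (‖(p k).eval 0‖ / C) ^ 2) * ∑ k ∈ K, ‖(p k).eval (E 1 x)‖ ^ 2 :=
      Finset.sum_mul_sq_le_sq_mul_sq _ _ _
    have h3 : ∑ k ∈ K, (‖(p k).eval 0‖ / C) ^ 2 = 1 := by
      simp_rw [div_pow]
      rw [← Finset.sum_div, ← hC2, ← hCC]
      field_simp
    rw [h3, one_mul] at h2
    exact (pow_le_pow_left₀ (norm_nonneg _) h1 2).trans h2
  have hj := jensen_poly X (by rw [hX0]; exact_mod_cast hCpos.ne')
  rw [hX0, Complex.norm_real, Real.norm_eq_abs, abs_of_pos hCpos] at hj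
  have hint := intervalIntegrable_log_poly X
  have hmono : ∫ x in (0:ℝ)..1, 2 * Real.log ‖X.eval (E 1 x)‖ ≤ ∫ x in (0:ℝ)..1, Real.log (w x) := by
    refine intervalIntegral.integral_mono_on zero_le_one (hint.const_mul 2)
      (hlog.intervalIntegrable _ _) fun x _ => ?_
    rcases eq_or_ne ‖X.eval (E 1 x)‖ 0 with h0 | h0
    · rw [h0, Real.log_zero, mul_zero]
      exact Real.log_nonneg (hw1 x)
    · have h4 : 2 * Real.log ‖X.eval (E 1 x)‖ = Real.log (‖X.eval (E 1 x)‖ ^ 2) := by
        rw [Real.log_pow]; norm_num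
      rw [h4]
      exact Real.log_le_log (by positivity) (hbound x)
  rw [intervalIntegral.integral_const_mul] at hmono
  have h5 : Real.log C2 = 2 * Real.log C := by
    rw [← hCC, Real.log_mul hCpos.ne' hCpos.ne']; ring
  rw [h5]
  linarith

/-- sorted enumeration of `A` as a chain -/
private lemma exists_gaps (A : Finset ℤ) :
    ∃ (b : ℤ) (g : ℕ → ℕ), (∀ i, 1 ≤ g i) ∧
      A = (range A.card).image (fun j => b + ((∑ i ∈ range j, g i : ℕ) : ℤ)) ∧
      Set.InjOn (fun j => b + ((∑ i ∈ range j, g i : ℕ) : ℤ)) (range A.card : Set ℕ) := by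
  classical
  set N := A.card with hN
  rcases Nat.eq_zero_or_pos N with h0 | hpos
  · refine ⟨0, fun _ => 1, fun _ => le_rfl, ?_, ?_⟩
    · rw [h0, range_zero, image_empty]
      exact Finset.card_eq_zero.1 (hN ▸ h0)
    · rw [h0]; simp
  let e : Fin N ↪o ℤ := A.orderEmbOfFin hN.symm
  let b : ℤ := e ⟨0, hpos⟩
  let g : ℕ → ℕ := fun i => if h : i + 1 < N then
    (e ⟨i + 1, h⟩ - e ⟨i, (Nat.lt_succ_self i).trans h⟩).toNat else 1
  have hg1 : ∀ i, 1 ≤ g i := by
    intro i
    by_cases h : i + 1 < N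
    · simp only [g, dif_pos h]
      have : e ⟨i, (Nat.lt_succ_self i).trans h⟩ < e ⟨i + 1, h⟩ :=
        e.strictMono (by simp [Fin.lt_def])
      omega
    · simp only [g, dif_neg h]; exact le_rfl
  have hsum : ∀ j (hj : j < N), b + ((∑ i ∈ range j, g i : ℕ) : ℤ) = e ⟨j, hj⟩ := by
    intro j
    induction j with
    | zero => intro hj; simp [b]
    | succ j ih =>
      intro hj
      have hj' : j < N := (Nat.lt_succ_self j).trans hj
      have h1 := ih hj'
      rw [Finset.sum_range_succ]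
      push_cast at h1 ⊢
      rw [← add_assoc, h1]
      simp only [g, dif_pos hj]
      have : e ⟨j, hj'⟩ < e ⟨j + 1, hj⟩ := e.strictMono (by simp [Fin.lt_def])
      rw [Int.toNat_of_nonneg (by omega)]
      ring
  refine ⟨b, g, hg1, ?_, ?_⟩
  · ext a
    rw [mem_image]
    constructor
    · intro ha
      have : a ∈ Set.range e := by
        have := Finset.range_orderEmbOfFin A hN.symm
        rw [this]; exact ha
      obtain ⟨⟨j, hj⟩, rfl⟩ := this
      exact ⟨j, mem_range.2 hj, hsum j hj⟩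
    · rintro ⟨j, hj, rfl⟩
      rw [hsum j (mem_range.1 hj)]
      exact Finset.orderEmbOfFin_mem A hN.symm _
  · intro i hi j hj hij
    rw [mem_coe, mem_range] at hi hj
    simp only at hij
    rw [hsum i hi, hsum j hj] at hij
    have := e.injective hij
    simpa using this

/-- **Certificates give the logarithmic inequality for every set.** -/
theorem log_le_of_cert (A : Finset ℤ) {s : ℝ} (hs : 0 ≤ s) {ι : Type} (K : Finset ι)
    (f : ι → MvPolynomial ℕ ℂ)
    (hf : ∀ x : ℕ → ℂ, (∀ i, ‖x i‖ = 1) →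
      ∑ k ∈ K, ‖MvPolynomial.eval x (f k)‖ ^ 2 ≤ 1 + s * ‖Fx A.card x‖ ^ 2) :
    Real.log (∑ k ∈ K, ‖MvPolynomial.constantCoeff (f k)‖ ^ 2) ≤
      ∫ x in (0:ℝ)..1, Real.log (1 + s * ‖F A x‖ ^ 2) := by
  classical
  obtain ⟨b, g, hg1, hA, hinj⟩ := exists_gaps A
  -- the chain sum is the exponential sum up to a unimodular factor
  have hFx : ∀ x : ℝ, ‖Fx A.card (fun i => E 1 x ^ g i)‖ = ‖F A x‖ := by
    intro x
    have h1 : F A x = E b x * Fx A.card (fun i => E 1 x ^ g i) := by
      unfold F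
      conv_lhs => rw [hA]
      rw [Finset.sum_image hinj]
      unfold Fx
      rw [Finset.mul_sum]
      refine Finset.sum_congr rfl fun j _ => ?_
      rw [E_add, Finset.prod_pow_eq_pow_sum, E_pow, one_mul]
    rw [h1, norm_mul, norm_E, one_mul]
  set p : ι → Polynomial ℂ := fun k =>
    MvPolynomial.aeval (fun i => (Polynomial.X : Polynomial ℂ) ^ g i) (f k) with hp
  have hpe : ∀ k z, (p k).eval z = MvPolynomial.eval (fun i => z ^ g i) (f k) := by
    intro k z
    simp only [hp]
    have h1 := MvPolynomial.map_aeval (fun i => (Polynomial.X : Polynomial ℂ) ^ g i)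
      (Polynomial.evalRingHom z) (f k)
    simp only [Polynomial.coe_evalRingHom] at h1
    rw [h1]
    rw [MvPolynomial.coe_eval₂Hom]
    have h2 : (Polynomial.evalRingHom z).comp (algebraMap ℂ (Polynomial ℂ)) = RingHom.id ℂ := by
      ext c; simp
    rw [h2]
    simp only [Polynomial.eval_pow, Polynomial.eval_X]
    rfl
  have hp0 : ∀ k, (p k).eval 0 = MvPolynomial.constantCoeff (f k) := by
    intro k
    rw [hpe k 0]
    have : (fun i => (0:ℂ) ^ g i) = 0 := by
      funext i
      simp only [Pi.zero_apply]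
      exact zero_pow (by have := hg1 i; omega)
    rw [this, MvPolynomial.constantCoeff_eq, ← MvPolynomial.constantCoeff_eq,
      ← MvPolynomial.eval_zero]
  have key := jensen_vec K p (fun x => 1 + s * ‖F A x‖ ^ 2)
    (by have := continuous_F A; fun_prop)
    (fun x => by
      have : 0 ≤ s * ‖F A x‖ ^ 2 := by positivity
      linarith)
    (fun x => by
      have h := hf (fun i => E 1 x ^ g i) (fun i => by rw [norm_pow, norm_E, one_pow])
      rw [hFx x] at h
      refine le_trans (le_of_eq ?_) h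
      exact Finset.sum_congr rfl fun k _ => by rw [hpe])
  simp_rw [hp0] at key
  exact key

end Pool.Agent.MP_d1728b_an.HL
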