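import Pool.Agent.Lib.MP_d1728b_an.HL.Cert

/-!
# Certificates for `N = |A|` and all `s` give the sharp Littlewood inequality for `A`
-/

set_option autoImplicit false

open Finset Filter Topology MeasureTheory
open Pool.Agent.Littlewood

namespace Pool.Agent.MP_d1728b_an.HL

private lemma integral_comp_int_mul' {g : ℝ → ℝ} (hg : Function.Periodic g 1) (hc : Continuous g)
    {d : ℤ} (hd : d ≠ 0) :
    ∫ x in (0:ℝ)..1, g (d * x) = ∫ x in (0:ℝ)..1, g x := by
  have hd' : (d:ℝ) ≠ 0 := by exact_mod_cast hd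
  rw [intervalIntegral.integral_comp_mul_left (fun x => g x) hd', mul_zero, mul_one]
  have h := hg.intervalIntegral_add_zsmul_eq d 0
  simp only [zero_add, zsmul_eq_mul, mul_one] at h
  rw [h (fun _ _ => hc.intervalIntegrable _ _), smul_eq_mul, ← mul_assoc, inv_mul_cancel₀ hd', one_mul]

private lemma norm_AP' (A : Finset ℤ) (b : ℤ) {d : ℤ} (hd : d ≠ 0) :
    ∫ x in (0:ℝ)..1, ‖∑ a ∈ A, E (b + a * d) x‖ = ∫ x in (0:ℝ)..1, ‖F A x‖ := by
  have hper : Function.Periodic (fun x : ℝ => ‖F A x‖) 1 := by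
    intro x
    simp only [F]
    congr 1
    refine Finset.sum_congr rfl fun a _ => ?_
    rw [E_periodic]
  have hcont : Continuous (fun x : ℝ => ‖F A x‖) := (continuous_F A).norm
  rw [← integral_comp_int_mul' hper hcont hd]
  refine intervalIntegral.integral_congr fun x _ => ?_
  have h1 : ∑ a ∈ A, E (b + a * d) x = E b x * ∑ a ∈ A, E a (d * x) := by
    rw [Finset.mul_sum]
    refine Finset.sum_congr rfl fun a _ => ?_
    rw [E_add]
    congr 1
    unfold E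
    congr 1
    push_cast
    ring
  simp only [F]
  rw [h1, norm_mul, norm_E, one_mul]

/-- the logarithmic inequality for all `s` gives the sharp inequality for `A` -/
theorem main_of_log (A : Finset ℤ)
    (hlog : ∀ s : ℝ, 0 < s →
      ∫ x in (0:ℝ)..1, Real.log (1 + s * ‖F (Finset.Ico 0 (A.card : ℤ)) x‖ ^ 2) ≤
        ∫ x in (0:ℝ)..1, Real.log (1 + s * ‖F A x‖ ^ 2))
    (a d : ℤ) (hd : d ≠ 0) :
    (∫ θ in (0:ℝ)..1,
          ‖∑ k ∈ Finset.range A.card,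
              Complex.exp (2 * (Real.pi : ℂ) * Complex.I * (((a + d * (k : ℤ) : ℤ)) : ℂ) * (θ : ℂ))‖)
        ≤ ∫ θ in (0:ℝ)..1,
          ‖∑ x ∈ A, Complex.exp (2 * (Real.pi : ℂ) * Complex.I * (x : ℂ) * (θ : ℂ))‖ := by
  have h1 : ∫ x in (0:ℝ)..1, ‖F (Finset.Ico 0 (A.card : ℤ)) x‖ ≤ ∫ x in (0:ℝ)..1, ‖F A x‖ :=
    l1_le (continuous_F _) (continuous_F A) hlog
  have h2 : ∀ θ : ℝ, ∑ k ∈ Finset.range A.card,
      Complex.exp (2 * (Real.pi : ℂ) * Complex.I * (((a + d * (k : ℤ) : ℤ)) : ℂ) * (θ : ℂ)) =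
      ∑ x ∈ Finset.Ico 0 (A.card : ℤ), E (a + x * d) θ := by
    intro θ
    have h3 : Finset.Ico (0 : ℤ) (A.card : ℤ) = (Finset.range A.card).map Nat.castEmbedding := by
      ext x
      simp only [Finset.mem_Ico, Finset.mem_map, Finset.mem_range, Nat.castEmbedding_apply]
      constructor
      · rintro ⟨h0, h1⟩
        exact ⟨x.toNat, by omega, by omega⟩
      · rintro ⟨k, hk, rfl⟩
        omega
    rw [h3, Finset.sum_map]
    refine Finset.sum_congr rfl fun k _ => ?_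
    unfold E
    rw [Nat.castEmbedding_apply]
    push_cast
    ring_nf
  simp_rw [h2]
  rw [norm_AP' _ a hd]
  exact h1


/-- `Minor N s r`: there is a (vector valued, polynomial) analytic minorant of `1 + s ‖Fx N‖²` on the
torus whose value at the origin has squared length `r`. -/
def Minor (N : ℕ) (s r : ℝ) : Prop :=
  ∃ (K : Finset ℕ) (f : ℕ → MvPolynomial ℕ ℂ),
    (∀ x : ℕ → ℂ, (∀ i, ‖x i‖ = 1) →
      ∑ k ∈ K, ‖MvPolynomial.eval x (f k)‖ ^ 2 ≤ 1 + s * ‖Fx N x‖ ^ 2) ∧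
    ∑ k ∈ K, ‖MvPolynomial.constantCoeff (f k)‖ ^ 2 = r

lemma log_le_of_minor (A : Finset ℤ) {s r : ℝ} (hs : 0 ≤ s) (h : Minor A.card s r) :
    Real.log r ≤ ∫ x in (0:ℝ)..1, Real.log (1 + s * ‖F A x‖ ^ 2) := by
  obtain ⟨K, f, hf, rfl⟩ := h
  exact log_le_of_cert A hs K f hf

/-- **Main reduction**: approximate minorants for all `s > 0` give the inequality for `A`. -/
theorem main_of_minor (A : Finset ℤ)
    (h : ∀ s : ℝ, 0 < s → ∀ ε : ℝ, 0 < ε → ∃ r : ℝ, Minor A.card s r ∧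
      ∫ x in (0:ℝ)..1, Real.log (1 + s * ‖F (Finset.Ico 0 (A.card : ℤ)) x‖ ^ 2) ≤ Real.log r + ε)
    (a d : ℤ) (hd : d ≠ 0) :
    (∫ θ in (0:ℝ)..1,
          ‖∑ k ∈ Finset.range A.card,
              Complex.exp (2 * (Real.pi : ℂ) * Complex.I * (((a + d * (k : ℤ) : ℤ)) : ℂ) * (θ : ℂ))‖)
        ≤ ∫ θ in (0:ℝ)..1,
          ‖∑ x ∈ A, Complex.exp (2 * (Real.pi : ℂ) * Complex.I * (x : ℂ) * (θ : ℂ))‖ := by
  apply main_of_log A _ a d hd
  intro s hs
  refine le_of_forall_pos_le_add fun ε hε => ?_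
  obtain ⟨r, hr, h1⟩ := h s hs ε hε
  have h2 := log_le_of_minor A hs.le hr
  linarith

end Pool.Agent.MP_d1728b_an.HL
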