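import Pool.Agent.Lib.MP_d1728b_an.HL.Outer
import Pool.Agent.Lib.MP_d1728b_an.HL.CertMain

/-!
# The outer factor of `1 + s |1 + z + ⋯ + z ^ n| ^ 2`

`exists_outer_AP`: real coefficients `G 0, …, G n` with `G 0 > 0`, no zeros in the closed disc,
`|G|² = 1 + s |F_P|²` on the circle, the autocorrelation identities, and
`∫ log (1 + s |F_P|²) = 2 log (G 0)`.
-/

set_option autoImplicit false

open Polynomial Finset

namespace Pool.Agent.MP_d1728b_an.HL

open Pool.Agent.Littlewood in
/-- autocorrelation of a finite sequence `g 0, …, g n` -/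
noncomputable def acorr (n : ℕ) (g : ℕ → ℝ) (m : ℕ) : ℝ := ∑ l ∈ range (n + 1 - m), g l * g (l + m)

lemma norm_sq_sum (n : ℕ) (g : ℕ → ℝ) {z : ℂ} (hz : ‖z‖ = 1) :
    ‖∑ l ∈ range (n + 1), (g l : ℂ) * z ^ l‖ ^ 2 = cosPoly n (acorr n g) z := by
  have hzz : (starRingEnd ℂ) z * z = 1 := by
    rw [mul_comm, Complex.mul_conj, Complex.normSq_eq_norm_sq, hz]
    norm_num
  induction n with
  | zero =>
    simp [cosPoly, acorr, sq]
  | succ n ih =>
    rw [Finset.sum_range_succ, ← Complex.normSq_eq_norm_sq, Complex.normSq_add,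
      Complex.normSq_eq_norm_sq, ih, map_mul, Complex.normSq_ofReal, map_pow,
      Complex.normSq_eq_norm_sq z, hz]
    have h1 : ((∑ l ∈ range (n + 1), (g l : ℂ) * z ^ l) *
        (starRingEnd ℂ) ((g (n + 1) : ℂ) * z ^ (n + 1))).re =
        ∑ k ∈ range (n + 1), g (n - k) * g (n + 1) * (z ^ (k + 1)).re := by
      rw [← Finset.sum_range_reflect (fun l => (g l : ℂ) * z ^ l), Finset.sum_mul, Complex.re_sum]
      refine Finset.sum_congr rfl fun k hk => ?_
      have hk' : k < n + 1 := Finset.mem_range.mp hk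
      have e1 : n + 1 - 1 - k = n - k := by omega
      rw [e1, map_mul, Complex.conj_ofReal, map_pow]
      have e2 : (z ^ (n - k)) * ((starRingEnd ℂ) z) ^ (n + 1) = ((starRingEnd ℂ) z) ^ (k + 1) := by
        have : n + 1 = (n - k) + (k + 1) := by omega
        rw [this, pow_add, ← mul_assoc, ← mul_pow, mul_comm z, hzz, one_pow, one_mul]
      have e3 : (g (n - k) : ℂ) * z ^ (n - k) * ((g (n + 1) : ℂ) * ((starRingEnd ℂ) z) ^ (n + 1)) =
          ((g (n - k) * g (n + 1) : ℝ) : ℂ) * ((starRingEnd ℂ) z) ^ (k + 1) := by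
        rw [← e2]; push_cast; ring
      rw [e3, Complex.re_ofReal_mul, ← map_pow, Complex.conj_re]
    rw [h1]
    have h2 : ∀ m, m ≤ n + 1 → acorr (n + 1) g m = acorr n g m + g (n + 1 - m) * g (n + 1) := by
      intro m hm
      unfold acorr
      have : n + 1 + 1 - m = (n + 1 - m) + 1 := by omega
      rw [this, Finset.sum_range_succ]
      congr 3
      omega
    have h3 : acorr n g (n + 1) = 0 := by
      unfold acorr; simp
    have h4 : cosPoly (n + 1) (acorr (n + 1) g) z =
        (acorr n g 0 + g (n + 1) * g (n + 1)) +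
        ∑ k ∈ range (n + 1), 2 * ((acorr n g (k + 1) + g (n - k) * g (n + 1)) * (z ^ (k + 1)).re) := by
      unfold cosPoly
      rw [h2 0 (by omega)]
      congr 1
      refine Finset.sum_congr rfl fun k hk => ?_
      have hk' : k < n + 1 := Finset.mem_range.mp hk
      rw [h2 (k + 1) (by omega)]
      have : n + 1 - (k + 1) = n - k := by omega
      rw [this]
    rw [h4]
    have h5 : cosPoly n (acorr n g) z = acorr n g 0 +
        ∑ k ∈ range (n + 1), 2 * (acorr n g (k + 1) * (z ^ (k + 1)).re) := by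
      unfold cosPoly
      rw [Finset.sum_range_succ, h3]
      ring
    rw [h5]
    simp only [add_mul, mul_add, Finset.sum_add_distrib, Finset.mul_sum]
    ring

/-- a cosine polynomial vanishing on the circle has zero coefficients -/
lemma cosPoly_coeff_eq_zero {n : ℕ} {r : ℕ → ℝ} (h : ∀ z : ℂ, ‖z‖ = 1 → cosPoly n r z = 0)
    {k : ℕ} (hk : k ≤ n) : r k = 0 := by
  have hinf : (Metric.sphere (0 : ℂ) 1).Infinite := by
    have h1 : IsPreconnected (Metric.sphere (0 : ℂ) 1) :=
      isPreconnected_sphere (by rw [Complex.rank_real_complex]; norm_num) 0 1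
    refine h1.infinite_of_nontrivial ⟨1, by simp, -1, by simp, ?_⟩
    norm_num
  have hp : palin n r = 0 := by
    apply Polynomial.eq_zero_of_infinite_isRoot
    refine hinf.mono fun z hz => ?_
    have hz' : ‖z‖ = 1 := by simpa using hz
    rw [Set.mem_ofPred_eq, IsRoot.def, eval_palin r hz', h z hz']
    simp
  have h2 := coeff_palin n r (n + k)
  rw [hp, coeff_zero, if_pos (by omega)] at h2
  have h3 : Int.natAbs (((n + k : ℕ) : ℤ) - n) = k := by omega
  rw [h3] at h2
  exact_mod_cast h2.symm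

lemma cosPoly_coeff_unique {n : ℕ} {r r' : ℕ → ℝ}
    (h : ∀ z : ℂ, ‖z‖ = 1 → cosPoly n r z = cosPoly n r' z) {k : ℕ} (hk : k ≤ n) : r k = r' k := by
  have h1 : ∀ z : ℂ, ‖z‖ = 1 → cosPoly n (fun k => r k - r' k) z = 0 := by
    intro z hz
    have h2 := h z hz
    unfold cosPoly at h2 ⊢
    simp only [sub_mul, mul_sub, Finset.sum_sub_distrib]
    linarith
  have := cosPoly_coeff_eq_zero h1 hk
  linarith

/-- the cosine coefficients of `1 + s |1 + z + ⋯ + z ^ n| ^ 2` -/
noncomputable def rAP (n : ℕ) (s : ℝ) (m : ℕ) : ℝ :=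
  (if m = 0 then 1 else 0) + s * ((n + 1 - m : ℕ) : ℝ)

lemma cosPoly_rAP (n : ℕ) (s : ℝ) {z : ℂ} (hz : ‖z‖ = 1) :
    cosPoly n (rAP n s) z = 1 + s * ‖∑ j ∈ range (n + 1), z ^ j‖ ^ 2 := by
  have h1 := norm_sq_sum n (fun _ => 1) hz
  simp only [Complex.ofReal_one, one_mul] at h1
  rw [h1]
  have h2 : ∀ m, acorr n (fun _ => 1) m = ((n + 1 - m : ℕ) : ℝ) := by
    intro m
    unfold acorr
    simp
  unfold cosPoly rAP
  simp only [h2, Nat.succ_ne_zero, if_false, if_true, zero_add, mul_add, Finset.mul_sum]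
  rw [add_assoc]
  congr 2
  refine Finset.sum_congr rfl fun k _ => ?_
  ring

open Pool.Agent.Littlewood in
/-- The outer factor of `1 + s |F_P|²`, `P` the progression with `n + 1` terms. -/
theorem exists_outer_AP (n : ℕ) {s : ℝ} (hs : 0 ≤ s) :
    ∃ G : ℕ → ℝ, 0 < G 0 ∧ (∀ k, n < k → G k = 0) ∧
      (∀ z : ℂ, ‖z‖ ≤ 1 → ∑ l ∈ range (n + 1), (G l : ℂ) * z ^ l ≠ 0) ∧
      (∀ z : ℂ, ‖z‖ = 1 → ‖∑ l ∈ range (n + 1), (G l : ℂ) * z ^ l‖ ^ 2 =
        1 + s * ‖∑ j ∈ range (n + 1), z ^ j‖ ^ 2) ∧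
      (∀ m, m ≤ n → ∑ l ∈ range (n + 1 - m), G l * G (l + m) =
        (if m = 0 then 1 else 0) + s * ((n + 1 - m : ℕ) : ℝ)) ∧
      ∫ x in (0:ℝ)..1, Real.log (1 + s * ‖F (Finset.Ico 0 ((n : ℤ) + 1)) x‖ ^ 2) =
        2 * Real.log (G 0) := by
  obtain ⟨G, hdeg, h0, hne, hsq⟩ := exists_outer n (rAP n s) (by
    intro z hz
    rw [cosPoly_rAP n s hz]
    have : 0 ≤ s * ‖∑ j ∈ range (n + 1), z ^ j‖ ^ 2 := by positivity
    linarith)
  have hev : ∀ z : ℂ, aeval z G = ∑ l ∈ range (n + 1), (G.coeff l : ℂ) * z ^ l := by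
    intro z
    rw [aeval_eq_sum_range' (Nat.lt_succ_of_le hdeg)]
    refine Finset.sum_congr rfl fun l _ => ?_
    rw [Algebra.smul_def]
    rfl
  refine ⟨G.coeff, h0, fun k hk => coeff_eq_zero_of_natDegree_lt (by omega), ?_, ?_, ?_, ?_⟩
  · intro z hz
    rw [← hev]
    exact hne z hz
  · intro z hz
    rw [← hev, hsq z hz, cosPoly_rAP n s hz]
  · intro m hm
    have h1 : ∀ z : ℂ, ‖z‖ = 1 → cosPoly n (acorr n G.coeff) z = cosPoly n (rAP n s) z := by
      intro z hz
      rw [← norm_sq_sum n G.coeff hz, ← hev, hsq z hz]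
    exact cosPoly_coeff_unique h1 hm
  · -- the mean value property of `log |G|`
    have han : AnalyticOnNhd ℂ (fun z : ℂ => aeval z G) (Metric.closedBall 0 |1|) := by
      intro z _
      exact (analyticOnNhd_id.aeval_polynomial G) z (Set.mem_univ z)
    have h1 := han.circleAverage_log_norm_of_ne_zero (by
      intro u hu
      rw [mem_closedBall_zero_iff, abs_one] at hu
      exact hne u hu)
    have h2 : Real.circleAverage (fun z => Real.log ‖aeval z G‖) 0 1 =
        ∫ x in (0:ℝ)..1, Real.log ‖aeval (E 1 x) G‖ := by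
      have h := intervalIntegral.integral_comp_mul_left (a := 0) (b := 1)
        (fun θ => Real.log ‖aeval (circleMap 0 1 θ) G‖) (c := 2 * Real.pi) (by positivity)
      rw [mul_zero, mul_one] at h
      rw [Real.circleAverage_def, ← h]
      refine intervalIntegral.integral_congr fun x _ => ?_
      have : circleMap 0 1 ((2 * Real.pi) * x) = E 1 x := by
        unfold circleMap E
        rw [zero_add, Complex.ofReal_one, one_mul]
        congr 1
        push_cast
        ring
      simp only [this]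
    have h3 : aeval (0:ℂ) G = ((G.coeff 0 : ℝ) : ℂ) := by
      rw [aeval_def, eval₂_at_zero]
      rfl
    have h4 : ∀ x : ℝ, Real.log (1 + s * ‖F (Finset.Ico 0 ((n : ℤ) + 1)) x‖ ^ 2) =
        2 * Real.log ‖aeval (E 1 x) G‖ := by
      intro x
      have hE : ‖E 1 x‖ = 1 := norm_E 1 x
      have e1 : F (Finset.Ico 0 ((n : ℤ) + 1)) x = ∑ j ∈ range (n + 1), (E 1 x) ^ j := by
        have h3 : Finset.Ico (0 : ℤ) ((n : ℤ) + 1) = (Finset.range (n + 1)).map Nat.castEmbedding := by
          ext x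
          simp only [Finset.mem_Ico, Finset.mem_map, Finset.mem_range, Nat.castEmbedding_apply]
          constructor
          · rintro ⟨h0, h1⟩
            exact ⟨x.toNat, by omega, by omega⟩
          · rintro ⟨k, hk, rfl⟩
            omega
        unfold F
        rw [h3, Finset.sum_map]
        refine Finset.sum_congr rfl fun k _ => ?_
        rw [E_pow, one_mul]
        rfl
      rw [e1, ← cosPoly_rAP n s hE, ← hsq _ hE, Real.log_pow]
      norm_num
    simp_rw [h4]
    rw [intervalIntegral.integral_const_mul, ← h2, h1, h3, Complex.norm_real, Real.norm_eq_abs,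
      abs_of_pos h0]

end Pool.Agent.MP_d1728b_an.HL
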