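import Pool.Agent.Lib.MP_d1728b_an.HL.CertMain
import Pool.Agent.Lib.MP_d1728b_an.HL.OuterAP

/-!
# The certificate for `N = 3`

`1 + s |1 + x + x y|² = ½ |G₀ + G₁ x + G₂ x y|² + ½ |G₀ + G₁ y + G₂ x y|²` on the torus, where
`G₀ + G₁ z + G₂ z²` is the outer factor of `1 + s |1 + z + z²|²`.
-/

set_option autoImplicit false

open Finset Filter Topology MeasureTheory
open Pool.Agent.Littlewood

namespace Pool.Agent.MP_d1728b_an.HL

private lemma normSq3 (a b c : ℝ) {x y : ℂ} (hx : ‖x‖ = 1) (hy : ‖y‖ = 1) :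
    ‖(a : ℂ) + b * x + c * (x * y)‖ ^ 2 =
      a ^ 2 + b ^ 2 + c ^ 2 + 2 * (a * b) * x.re + 2 * (b * c) * y.re +
        2 * (a * c) * (x * y).re := by
  have hx' : x.re ^ 2 + x.im ^ 2 = 1 := by
    have := Complex.sq_norm x
    rw [hx, Complex.normSq_apply] at this
    nlinarith
  have hy' : y.re ^ 2 + y.im ^ 2 = 1 := by
    have := Complex.sq_norm y
    rw [hy, Complex.normSq_apply] at this
    nlinarith
  rw [Complex.sq_norm, Complex.normSq_apply]
  simp only [Complex.add_re, Complex.add_im, Complex.mul_re, Complex.mul_im, Complex.ofReal_re,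
    Complex.ofReal_im]
  linear_combination (b ^ 2 + 2 * (b * c) * y.re + c ^ 2 * (y.re ^ 2 + y.im ^ 2)) * hx' +
    c ^ 2 * hy'

/-- **The certificate for `N = 3`.** -/
theorem minor_three {s : ℝ} {G : ℕ → ℝ}
    (h0 : G 0 ^ 2 + G 1 ^ 2 + G 2 ^ 2 = 1 + 3 * s) (h1 : G 0 * G 1 + G 1 * G 2 = 2 * s)
    (h2 : G 0 * G 2 = s) : Minor 3 s (G 0 ^ 2) := by
  have hsq : (Real.sqrt 2)⁻¹ ^ 2 = 1 / 2 := by
    rw [inv_pow, Real.sq_sqrt (by norm_num)]
    norm_num
  refine ⟨{0, 1}, fun k =>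
    MvPolynomial.C (((Real.sqrt 2)⁻¹ : ℝ) : ℂ) * (MvPolynomial.C (G 0 : ℂ) +
      MvPolynomial.C (G 1 : ℂ) * MvPolynomial.X k +
      MvPolynomial.C (G 2 : ℂ) * (MvPolynomial.X k * MvPolynomial.X (1 - k))), ?_, ?_⟩
  · intro x hx
    rw [Finset.sum_pair (by norm_num)]
    simp only [map_mul, map_add, MvPolynomial.eval_C, MvPolynomial.eval_X, Nat.sub_zero,
      Nat.sub_self, norm_mul, mul_pow]
    have e3 : Fx 3 x = ((1 : ℝ) : ℂ) + ((1 : ℝ) : ℂ) * x 0 + ((1 : ℝ) : ℂ) * (x 0 * x 1) := by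
      unfold Fx
      simp [Finset.sum_range_succ, Finset.prod_range_succ]
    rw [e3, normSq3 _ _ _ (hx 0) (hx 1), normSq3 _ _ _ (hx 0) (hx 1),
      normSq3 _ _ _ (hx 1) (hx 0), Complex.norm_real, Real.norm_eq_abs, sq_abs, hsq,
      mul_comm (x 1) (x 0)]
    apply le_of_eq
    linear_combination h0 + ((x 0).re + (x 1).re) * h1 + 2 * (x 0 * x 1).re * h2
  · rw [Finset.sum_pair (by norm_num)]
    simp only [map_mul, map_add, MvPolynomial.constantCoeff_C, MvPolynomial.constantCoeff_X,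
      mul_zero, add_zero, norm_mul, mul_pow, Complex.norm_real, Real.norm_eq_abs, sq_abs,
      hsq]
    ring

/-- The sharp Hardy-Littlewood inequality for the sets with three elements. -/
theorem main_three (A : Finset ℤ) (hA : A.card = 3) (a d : ℤ) (hd : d ≠ 0) :
    (∫ θ in (0:ℝ)..1,
          ‖∑ k ∈ Finset.range A.card,
              Complex.exp (2 * (Real.pi : ℂ) * Complex.I * (((a + d * (k : ℤ) : ℤ)) : ℂ) * (θ : ℂ))‖)
        ≤ ∫ θ in (0:ℝ)..1,
          ‖∑ x ∈ A, Complex.exp (2 * (Real.pi : ℂ) * Complex.I * (x : ℂ) * (θ : ℂ))‖ := by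
  apply main_of_minor A _ a d hd
  intro s hs ε hε
  obtain ⟨G, hG0, -, -, -, hac, hint⟩ := exists_outer_AP 2 hs.le
  have h0 := hac 0 (by norm_num)
  have h1 := hac 1 (by norm_num)
  have h2 := hac 2 (by norm_num)
  simp [Finset.sum_range_succ] at h0 h1 h2
  refine ⟨G 0 ^ 2, ?_, ?_⟩
  · rw [hA]
    exact minor_three (by linarith) (by linarith) (by linarith)
  · rw [hA, Real.log_pow]
    have : ((3 : ℕ) : ℤ) = ((2 : ℕ) : ℤ) + 1 := by norm_num
    rw [this, hint]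
    push_cast
    linarith

end Pool.Agent.MP_d1728b_an.HL
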