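import Pool.Agent.Lib.MP_d1728b_an.HL.CertMain
import Pool.Agent.Lib.MP_d1728b_an.HL.OuterAP

/-!
# The certificate for `N = 4`

The minorant is `f = a + b (x + z) + p y + c (x y + y z) + q x z + d x y z`, and
`1 + s |1 + x + x y + x y z|² - |f|²` is a sum of squares. Everything is a rational function of a
parameter `t` in `(√2 - 1, 1)`.
-/

set_option autoImplicit false

open Finset Filter Topology MeasureTheory
open Pool.Agent.Littlewood

namespace Pool.Agent.MP_d1728b_an.HL

/-- the sum of squares identity -/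
theorem certN4_identity {a b p c q d s : ℝ}
    (hO : 1 + 4 * s = a ^ 2 + (2 * b + p) ^ 2 + (2 * c + q) ^ 2 + d ^ 2)
    (hX : s = c * d + p * q + p * c + b * q + a * b)
    (hY : s = q * d - p * q + 4 * b * c + a * p)
    (hYZ : s = b * d + a * c) (hXZ : p * d + a * q = 0) (hXYZ : s = a * d)
    {x y z : ℂ} (hx : ‖x‖ = 1) (hy : ‖y‖ = 1) (hz : ‖z‖ = 1) :
    1 + s * ‖1 + x + x * y + x * y * z‖ ^ 2 =
      ‖(a : ℂ) + b * (x + z) + p * y + c * (x * y + y * z) + q * (x * z) + d * (x * y * z)‖ ^ 2 +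
      ‖((b : ℂ) + c * y) * (x - z)‖ ^ 2 +
      (b * p + c * q + p * q) * (‖x - y‖ ^ 2 + ‖y - z‖ ^ 2) +
      -(p * q) * ‖x * z - y * z + y - z‖ ^ 2 := by
  have x0 : x ≠ 0 := by rintro rfl; simp at hx
  have y0 : y ≠ 0 := by rintro rfl; simp at hy
  have z0 : z ≠ 0 := by rintro rfl; simp at hz
  have cx : (starRingEnd ℂ) x = x⁻¹ := (Complex.inv_eq_conj hx).symm
  have cy : (starRingEnd ℂ) y = y⁻¹ := (Complex.inv_eq_conj hy).symm
  have cz : (starRingEnd ℂ) z = z⁻¹ := (Complex.inv_eq_conj hz).symm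
  have hO' : (1 : ℂ) + 4 * s = a ^ 2 + (2 * b + p) ^ 2 + (2 * c + q) ^ 2 + d ^ 2 := by
    exact_mod_cast hO
  have hX' : (s : ℂ) = c * d + p * q + p * c + b * q + a * b := by exact_mod_cast hX
  have hY' : (s : ℂ) = q * d - p * q + 4 * b * c + a * p := by exact_mod_cast hY
  have hYZ' : (s : ℂ) = b * d + a * c := by exact_mod_cast hYZ
  have hXZ' : (p : ℂ) * d + a * q = 0 := by exact_mod_cast hXZ
  have hXYZ' : (s : ℂ) = a * d := by exact_mod_cast hXYZ
  apply Complex.ofReal_injective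
  push_cast
  simp only [← Complex.mul_conj', map_add, map_sub, map_mul, Complex.conj_ofReal, cx, cy, cz,
    map_one]
  field_simp
  linear_combination x * y * z * hO' +
    (x ^ 2 * y * z + y * z + x * y * z ^ 2 + x * y) * hX' +
    (x * y ^ 2 * z + x * z) * hY' +
    (x ^ 2 * y ^ 2 * z + z + x * y ^ 2 * z ^ 2 + x) * hYZ' +
    (-(x ^ 2 * y * z ^ 2) - y) * hXZ' +
    (x ^ 2 * y ^ 2 * z ^ 2 + 1) * hXYZ'

/-- the minorant for `N = 4` -/
theorem minor_four_of {a b p c q d s : ℝ}
    (hO : 1 + 4 * s = a ^ 2 + (2 * b + p) ^ 2 + (2 * c + q) ^ 2 + d ^ 2)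
    (hX : s = c * d + p * q + p * c + b * q + a * b)
    (hY : s = q * d - p * q + 4 * b * c + a * p)
    (hYZ : s = b * d + a * c) (hXZ : p * d + a * q = 0) (hXYZ : s = a * d)
    (hσ : 0 ≤ b * p + c * q + p * q) (hκ : p * q ≤ 0) : Minor 4 s (a ^ 2) := by
  refine ⟨{0}, fun _ => MvPolynomial.C (a : ℂ) +
    MvPolynomial.C (b : ℂ) * (MvPolynomial.X 0 + MvPolynomial.X 2) +
    MvPolynomial.C (p : ℂ) * MvPolynomial.X 1 +
    MvPolynomial.C (c : ℂ) * (MvPolynomial.X 0 * MvPolynomial.X 1 +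
      MvPolynomial.X 1 * MvPolynomial.X 2) +
    MvPolynomial.C (q : ℂ) * (MvPolynomial.X 0 * MvPolynomial.X 2) +
    MvPolynomial.C (d : ℂ) * (MvPolynomial.X 0 * MvPolynomial.X 1 * MvPolynomial.X 2), ?_, ?_⟩
  · intro x hx
    rw [Finset.sum_singleton]
    simp only [map_mul, map_add, MvPolynomial.eval_C, MvPolynomial.eval_X]
    have e4 : Fx 4 x = 1 + x 0 + x 0 * x 1 + x 0 * x 1 * x 2 := by
      unfold Fx
      simp [Finset.sum_range_succ, Finset.prod_range_succ]
    rw [e4, certN4_identity hO hX hY hYZ hXZ hXYZ (hx 0) (hx 1) (hx 2)]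
    have h1 : 0 ≤ (b * p + c * q + p * q) * (‖x 0 - x 1‖ ^ 2 + ‖x 1 - x 2‖ ^ 2) := by positivity
    have h2 : 0 ≤ -(p * q) * ‖x 0 * x 2 - x 1 * x 2 + x 1 - x 2‖ ^ 2 :=
      mul_nonneg (by linarith) (by positivity)
    have h3 : 0 ≤ ‖((b : ℂ) + c * x 1) * (x 0 - x 2)‖ ^ 2 := by positivity
    linarith
  · rw [Finset.sum_singleton]
    simp only [map_mul, map_add, MvPolynomial.constantCoeff_C, MvPolynomial.constantCoeff_X,
      mul_zero, add_zero, Complex.norm_real, Real.norm_eq_abs, sq_abs]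

/-- the certificate in terms of the parameter `t` -/
theorem minor_four_param {t : ℝ} (ht0 : 0 < t) (ht1 : t < 1) (hm : 0 < t ^ 2 + 2 * t - 1) :
    Minor 4 ((t * (1 + t) ^ 2 / ((t ^ 2 + 2 * t - 1) * (1 + t ^ 2))) ^ 2 *
      ((1 - t) / (t * (1 + t))))
      ((t * (1 + t) ^ 2 / ((t ^ 2 + 2 * t - 1) * (1 + t ^ 2))) ^ 2) := by
  set m : ℝ := t ^ 2 + 2 * t - 1 with hmdef
  have hD : 0 < 3 * t ^ 2 - 2 * t + 1 := by nlinarith [sq_nonneg (3 * t - 1)]
  have h1t : 0 < 1 - t := by linarith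
  set D : ℝ := 3 * t ^ 2 - 2 * t + 1 with hDdef
  set a : ℝ := t * (1 + t) ^ 2 / (m * (1 + t ^ 2)) with ha
  set g : ℝ := (1 - t) / (t * (1 + t)) with hg
  have ha0 : 0 < a := by positivity
  have hg0 : 0 < g := by positivity
  set τ : ℝ := t * (1 - t) * m / ((1 + t) * D) with hτ
  set β : ℝ := (1 - t) * (t ^ 3 + t ^ 2 - t + 1) / ((1 + t) * D) with hβ
  have hτ0 : 0 < τ := by positivity
  have hκ : 2 * β + τ = (1 - t) * (2 + t) / (1 + t) := by
    rw [hβ, hτ, hmdef]
    field_simp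
    rw [hDdef]
    ring
  have e1 : 1 + 4 * (a ^ 2 * g) = a ^ 2 * (1 + (2 * β + τ) ^ 2 + g ^ 2 * (2 - (2 * β + τ)) ^ 2 +
      g ^ 2) := by
    rw [hκ, ha, hg]
    field_simp
    rw [hmdef]
    ring
  have e2 : g = g ^ 2 * (1 - β) - τ ^ 2 * g + τ * g * (1 - β) - β * (τ * g) + β := by
    rw [hβ, hτ, hg, hmdef]
    field_simp
    rw [hDdef]
    ring
  have e3 : g = -(τ * g ^ 2) + τ ^ 2 * g + 4 * β * g * (1 - β) + τ := by
    rw [hβ, hτ, hg, hmdef]
    field_simp
    rw [hDdef]
    ring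
  have e4 : β - (1 - β) * g ^ 2 - τ * g =
      (1 - t) * m * (t ^ 2 * (1 + t) ^ 2 + (1 - t) ^ 2) / (t * (1 + t) ^ 3 * D) := by
    rw [hβ, hτ, hg, hmdef]
    field_simp
    rw [hDdef]
    ring
  refine minor_four_of (a := a) (b := a * β) (p := a * τ) (c := a * g * (1 - β))
    (q := -(a * g * τ)) (d := a * g) (s := a ^ 2 * g) ?_ ?_ ?_ ?_ ?_ ?_ ?_ ?_
  · linear_combination e1
  · linear_combination a ^ 2 * e2
  · linear_combination a ^ 2 * e3
  · ring
  · ring
  · ring
  · have h5 : a * β * (a * τ) + a * g * (1 - β) * -(a * g * τ) + a * τ * -(a * g * τ) =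
        a ^ 2 * τ * (β - (1 - β) * g ^ 2 - τ * g) := by ring
    rw [h5, e4]
    positivity
  · have : a * τ * -(a * g * τ) = -(a ^ 2 * τ ^ 2 * g) := by ring
    rw [this]
    have : 0 < a ^ 2 * τ ^ 2 * g := by positivity
    linarith

/-- the outer factor for `N = 4` in terms of the parameter -/
theorem minor_four {s : ℝ} (hs : 0 < s) : ∃ G₀ : ℝ, Minor 4 s (G₀ ^ 2) ∧
    ∫ x in (0:ℝ)..1, Real.log (1 + s * ‖F (Finset.Ico 0 (((3 : ℕ) : ℤ) + 1)) x‖ ^ 2) =
        2 * Real.log G₀ := by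
  obtain ⟨G, hG0, -, hne, hsq, hac, hint⟩ := exists_outer_AP 3 hs.le
  have r0 := hac 0 (by norm_num)
  have r1 := hac 1 (by norm_num)
  have r2 := hac 2 (by norm_num)
  have r3 := hac 3 (by norm_num)
  simp [Finset.sum_range_succ] at r0 r1 r2 r3
  refine ⟨G 0, ?_, hint⟩
  set a := G 0 with ha
  set d := G 3 with hd
  have hd0 : 0 < d := by
    have h1 : 0 < a * d := by rw [r3]; exact hs
    exact (pos_iff_pos_of_mul_pos h1).1 hG0
  -- value at `-1`
  have hm1 : a - G 1 + G 2 - d = 1 := by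
    have h1 := hsq (-1) (by simp)
    have h2 : ∑ l ∈ range (3 + 1), ((G l : ℝ) : ℂ) * (-1) ^ l =
        ((a - G 1 + G 2 - d : ℝ) : ℂ) := by
      simp [Finset.sum_range_succ, ha, hd]
      ring
    have h3 : ∑ j ∈ range (3 + 1), (-1 : ℂ) ^ j = 0 := by
      norm_num [Finset.sum_range_succ]
    rw [h2, h3, norm_zero, Complex.norm_real, Real.norm_eq_abs, sq_abs] at h1
    have h4 : (a - G 1 + G 2 - d - 1) * (a - G 1 + G 2 - d + 1) = 0 := by nlinarith
    rcases mul_eq_zero.1 h4 with h5 | h5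
    · linarith
    · exfalso
      have hcont : ContinuousOn (fun u : ℝ => a + G 1 * u + G 2 * u ^ 2 + d * u ^ 3)
          (Set.Icc (-1) 0) := by fun_prop
      have h6 := intermediate_value_Icc (by norm_num : (-1 : ℝ) ≤ 0) hcont
      have h7 : (0 : ℝ) ∈ Set.Icc (a + G 1 * (-1) + G 2 * (-1) ^ 2 + d * (-1) ^ 3)
          (a + G 1 * 0 + G 2 * 0 ^ 2 + d * 0 ^ 3) := by
        constructor
        · nlinarith
        · nlinarith
      obtain ⟨u, hu, hu0⟩ := h6 h7
      have h8 := hne (u : ℂ) (by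
        rw [Complex.norm_real, Real.norm_eq_abs, abs_le]
        exact ⟨hu.1, by linarith [hu.2]⟩)
      apply h8
      have h9 : ∑ l ∈ range (3 + 1), ((G l : ℝ) : ℂ) * (u : ℂ) ^ l =
          ((a + G 1 * u + G 2 * u ^ 2 + d * u ^ 3 : ℝ) : ℂ) := by
        simp [Finset.sum_range_succ, ha, hd]
      rw [h9]
      simp only at hu0
      rw [hu0]
      simp
  -- the last coefficient is smaller than the first
  have hda : d ≤ a := by
    set p : Polynomial ℂ := Polynomial.C (d : ℂ) + Polynomial.C (G 2 : ℂ) * Polynomial.X +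
      Polynomial.C (G 1 : ℂ) * Polynomial.X ^ 2 + Polynomial.C (a : ℂ) * Polynomial.X ^ 3 with hp
    have hp0 : p.eval 0 = (d : ℂ) := by simp [hp]
    have hj := jensen_poly p (by rw [hp0]; exact_mod_cast hd0.ne')
    have hw : ∀ x : ℝ, Real.log (1 + s * ‖F (Finset.Ico 0 (((3 : ℕ) : ℤ) + 1)) x‖ ^ 2) =
        2 * Real.log ‖p.eval (E 1 x)‖ := by
      intro x
      have hE : ‖E 1 x‖ = 1 := norm_E 1 x
      have e1 : F (Finset.Ico 0 (((3 : ℕ) : ℤ) + 1)) x = ∑ j ∈ range (3 + 1), (E 1 x) ^ j := by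
        have h3 : Finset.Ico (0 : ℤ) (((3 : ℕ) : ℤ) + 1) =
            (Finset.range (3 + 1)).map Nat.castEmbedding := by
          ext x
          simp only [Finset.mem_Ico, Finset.mem_map, Finset.mem_range, Nat.castEmbedding_apply]
          constructor
          · rintro ⟨h0, h1⟩
            exact ⟨x.toNat, by omega, by omega⟩
          · rintro ⟨k, hk, rfl⟩
            omega
        unfold F
        rw [h3, Finset.sum_map]
        refine Finset.sum_congr rfl fun k _ => ?_
        rw [E_pow, one_mul]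
        rfl
      set v := E 1 x with hv
      have hv0 : v ≠ 0 := by
        intro h0
        rw [h0] at hE
        simp at hE
      have cv : (starRingEnd ℂ) v = v⁻¹ := (Complex.inv_eq_conj hE).symm
      have e2 : p.eval v = v ^ 3 * (starRingEnd ℂ) (∑ l ∈ range (3 + 1), ((G l : ℝ) : ℂ) * v ^ l) := by
        simp [hp, Finset.sum_range_succ, cv, ← ha, ← hd]
        field_simp
        ring
      have e3 : ‖p.eval v‖ ^ 2 = 1 + s * ‖∑ j ∈ range (3 + 1), v ^ j‖ ^ 2 := by
        rw [e2, norm_mul, norm_pow, hE, one_pow, one_mul, RCLike.norm_conj, hsq v hE]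
      rw [e1, ← e3, Real.log_pow]
      norm_num
    simp_rw [hw] at hint
    rw [intervalIntegral.integral_const_mul, hp0, Complex.norm_real, Real.norm_eq_abs,
      abs_of_pos hd0] at *
    have h5 : Real.log d ≤ Real.log a := by linarith
    exact (Real.log_le_log_iff hd0 hG0).1 h5
  -- the equations
  have hω : (a + d) * (1 - G 1 / a) = 1 := by
    have h1 : G 2 = 2 * d - G 1 * d / a := by
      field_simp
      nlinarith
    have h2 : a - G 1 + (2 * d - G 1 * d / a) - d = 1 := by rw [← h1]; exact hm1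
    have h3 : (a + d) * (1 - G 1 / a) = a - G 1 + (2 * d - G 1 * d / a) - d := by
      field_simp
      ring
    rw [h3, h2]
  set ω : ℝ := 1 - G 1 / a with hωdef
  have hG1 : G 1 = a * (1 - ω) := by
    rw [hωdef]; field_simp; ring
  have hG2 : G 2 = d * (1 + ω) := by
    have h1 : a * G 2 = a * (d * (1 + ω)) := by
      rw [hG1] at r2
      nlinarith
    exact mul_left_cancel₀ hG0.ne' h1
  have hω0 : 0 < ω := by
    have : 0 < (a + d) * ω := by rw [hω]; norm_num
    exact (pos_iff_pos_of_mul_pos this).1 (by linarith)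
  have hrel : (a - d) ^ 2 = (a - d) + ω ^ 2 * (a * d) := by
    rw [hG1, hG2] at r1
    clear_value ω
    have h1 : a ^ 2 * (1 - ω) + a * d * (1 - ω ^ 2) + d ^ 2 * (1 + ω) = 3 * (a * d) := by
      linear_combination r1 - 3 * r3
    linear_combination h1 + (a - d) * hω
  have hda' : d < a := by
    rcases lt_or_eq_of_le hda with h | h
    · exact h
    · exfalso
      rw [h] at hrel
      have : 0 < ω ^ 2 * (a * a) := by positivity
      nlinarith
  have had : 0 < a - d := by linarith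
  set t : ℝ := ω * a / (a - d) with ht
  have ht0 : 0 < t := by positivity
  have hωt : ω * a = t * (a - d) := by rw [ht]; field_simp
  -- `t (a + d + d t) = a`
  have hquad : t * (a + d + d * t) = a := by
    have h1 : (a - d) * (t * (a + d + d * t)) = (a - d) * a := by
      have h2 : (a - d) ^ 2 * a = (a - d) * a + ω ^ 2 * a ^ 2 * d := by
        linear_combination a * hrel
      have h3 : ω ^ 2 * a ^ 2 = t ^ 2 * (a - d) ^ 2 := by
        have := congrArg (fun u => u ^ 2) hωt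
        simp only [mul_pow] at this
        exact this
      have h4 : (a + d) * (t * (a - d)) = a := by
        rw [← hωt]; linear_combination a * hω
      rw [h3] at h2
      have h5 : (a - d) * ((a - d) * a) = (a - d) * (a + t ^ 2 * (a - d) * d) := by
        linear_combination h2
      have h6 := mul_left_cancel₀ had.ne' h5
      linear_combination h4 - h6
    exact mul_left_cancel₀ had.ne' h1
  have ht1 : t < 1 := by
    by_contra h
    push Not at h
    have h1 : a + d + d * t ≤ t * (a + d + d * t) := by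
      have : 0 < a + d + d * t := by positivity
      nlinarith
    have : 0 < d * t := by positivity
    linarith
  have hdg : d = a * ((1 - t) / (t * (1 + t))) := by
    have : 0 < 1 + t := by linarith
    field_simp
    linear_combination hquad
  have hm : 0 < t ^ 2 + 2 * t - 1 := by
    have h1 : 0 < 1 + t := by linarith
    have h2 : (1 - t) / (t * (1 + t)) < 1 := by
      by_contra h
      push Not at h
      rw [hdg] at hda'
      nlinarith
    rw [div_lt_one (by positivity)] at h2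
    nlinarith
  have haf : a = t * (1 + t) ^ 2 / ((t ^ 2 + 2 * t - 1) * (1 + t ^ 2)) := by
    have h1 : (a + d) * (t * (a - d)) = a := by
      rw [← hωt]; linear_combination a * hω
    have h2 : 0 < 1 + t := by linarith
    rw [hdg] at h1
    have h3 : a * ((1 + (1 - t) / (t * (1 + t))) * t * (1 - (1 - t) / (t * (1 + t)))) = 1 := by
      have h4 : a * (a * ((1 + (1 - t) / (t * (1 + t))) * t * (1 - (1 - t) / (t * (1 + t))))) =
          a * 1 := by
        linear_combination h1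
      exact mul_left_cancel₀ hG0.ne' h4
    have h5 : (1 + (1 - t) / (t * (1 + t))) * t * (1 - (1 - t) / (t * (1 + t))) =
        (t ^ 2 + 2 * t - 1) * (1 + t ^ 2) / (t * (1 + t) ^ 2) := by
      field_simp
      ring
    rw [h5] at h3
    have h6 : 0 < (t ^ 2 + 2 * t - 1) * (1 + t ^ 2) := by positivity
    rw [eq_div_iff h6.ne']
    have h7 : a * ((t ^ 2 + 2 * t - 1) * (1 + t ^ 2) / (t * (1 + t) ^ 2)) * (t * (1 + t) ^ 2) =
        1 * (t * (1 + t) ^ 2) := by rw [h3]
    have h8 : a * ((t ^ 2 + 2 * t - 1) * (1 + t ^ 2) / (t * (1 + t) ^ 2)) * (t * (1 + t) ^ 2) =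
        a * ((t ^ 2 + 2 * t - 1) * (1 + t ^ 2)) := by
      field_simp
    linarith
  have key := minor_four_param ht0 ht1 hm
  rw [← haf] at key
  have hsval : a ^ 2 * ((1 - t) / (t * (1 + t))) = s := by
    rw [← r3]
    have : a ^ 2 * ((1 - t) / (t * (1 + t))) = a * (a * ((1 - t) / (t * (1 + t)))) := by ring
    rw [this, ← hdg]
  rw [hsval] at key
  exact key

/-- The sharp Hardy-Littlewood inequality for the sets with four elements. -/
theorem main_four (A : Finset ℤ) (hA : A.card = 4) (a d : ℤ) (hd : d ≠ 0) :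
    (∫ θ in (0:ℝ)..1,
          ‖∑ k ∈ Finset.range A.card,
              Complex.exp (2 * (Real.pi : ℂ) * Complex.I * (((a + d * (k : ℤ) : ℤ)) : ℂ) * (θ : ℂ))‖)
        ≤ ∫ θ in (0:ℝ)..1,
          ‖∑ x ∈ A, Complex.exp (2 * (Real.pi : ℂ) * Complex.I * (x : ℂ) * (θ : ℂ))‖ := by
  apply main_of_minor A _ a d hd
  intro s hs ε hε
  obtain ⟨G₀, hmin, hint⟩ := minor_four hs
  refine ⟨G₀ ^ 2, ?_, ?_⟩
  · rw [hA]
    exact hmin
  · rw [hA, Real.log_pow]
    have : ((4 : ℕ) : ℤ) = ((3 : ℕ) : ℤ) + 1 := by norm_num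
    rw [this, hint]
    push_cast
    linarith

end Pool.Agent.MP_d1728b_an.HL
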