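import Pool.Agent.Lib.MP_d1728b_an.Fourier

/-!
# The Gram matrix of translates of a set and its cyclic version

`gramI n A` has entry `#{a ∈ A : a + (i - j) ∈ A}`; `gramC m A` is the cyclic version modulo `m`.
`det (1 + s • gramC m A) = ∏_{k < m} (1 + s * |F_A (k / m)|²)`.
-/

set_option autoImplicit false

open Matrix Finset
open Pool.Agent.Littlewood

namespace Pool.Agent.MP_d1728b_an.HL

/-- Gram matrix of translates: entry `#{a ∈ A : a + (i - j) ∈ A}` -/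
noncomputable def gramI (n : ℕ) (A : Finset ℤ) : Matrix (Fin n) (Fin n) ℝ :=
  Matrix.of fun i j => ((A.filter (fun a => a + (((i : ℕ) : ℤ) - ((j : ℕ) : ℤ)) ∈ A)).card : ℝ)

/-- cyclic incidence matrix -/
noncomputable def cyc (m : ℕ) (A : Finset ℤ) : Matrix (Fin m) (Fin m) ℝ :=
  Matrix.of fun i z => ∑ a ∈ A, if (m : ℤ) ∣ a + ((i : ℕ) : ℤ) - ((z : ℕ) : ℤ) then 1 else 0

/-- cyclic Gram matrix -/
noncomputable def gramC (m : ℕ) (A : Finset ℤ) : Matrix (Fin m) (Fin m) ℝ :=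
  Matrix.of fun i j =>
    ∑ a ∈ A, ∑ b ∈ A, if (m : ℤ) ∣ a + ((i : ℕ) : ℤ) - b - ((j : ℕ) : ℤ) then 1 else 0

private lemma uniq {m : ℕ} (hm : 0 < m) (x : ℤ) :
    ∃ z0 : Fin m, ∀ z : Fin m, (m : ℤ) ∣ x - ((z : ℕ) : ℤ) ↔ z = z0 := by
  have hm' : (0 : ℤ) < m := by exact_mod_cast hm
  have h1 := Int.emod_nonneg x hm'.ne'
  have h2 := Int.emod_lt_of_pos x hm'
  refine ⟨⟨(x % m).toNat, by omega⟩, fun z => ?_⟩
  have hz : ((z : ℕ) : ℤ) < m := by exact_mod_cast z.2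
  constructor
  · intro h
    apply Fin.ext
    simp only
    have h3 : ((z : ℕ) : ℤ) % m = x % m := Int.modEq_iff_dvd.2 h
    rw [Int.emod_eq_of_lt (by positivity) hz] at h3
    omega
  · rintro rfl
    simp only
    have h3 : (((x % m).toNat : ℕ) : ℤ) = x % m := by omega
    rw [h3]
    exact Int.dvd_self_sub_emod

private lemma sum_ind {m : ℕ} {R : Type*} [Semiring R] (hm : 0 < m) (x : ℤ) (g : Fin m → R) :
    ∃ z0 : Fin m, (m : ℤ) ∣ x - ((z0 : ℕ) : ℤ) ∧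
      ∑ z : Fin m, (if (m : ℤ) ∣ x - ((z : ℕ) : ℤ) then 1 else 0) * g z = g z0 := by
  obtain ⟨z0, hz0⟩ := uniq hm x
  refine ⟨z0, (hz0 z0).2 rfl, ?_⟩
  rw [Finset.sum_eq_single z0]
  · rw [if_pos ((hz0 z0).2 rfl), one_mul]
  · intro z _ hz
    rw [if_neg (fun h => hz ((hz0 z).1 h)), zero_mul]
  · simp

lemma gramC_eq {m : ℕ} (hm : 0 < m) (A : Finset ℤ) : gramC m A = cyc m A * (cyc m A)ᵀ := by
  ext i j
  rw [Matrix.mul_apply]
  simp only [gramC, cyc, Matrix.of_apply, Matrix.transpose_apply]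
  simp_rw [Finset.sum_mul_sum]
  symm
  rw [Finset.sum_comm]
  refine Finset.sum_congr rfl fun a _ => ?_
  rw [Finset.sum_comm]
  refine Finset.sum_congr rfl fun b _ => ?_
  obtain ⟨z0, hz0, hz⟩ := sum_ind (R := ℝ) hm (a + ((i : ℕ) : ℤ))
    (fun z : Fin m => if (m : ℤ) ∣ b + ((j : ℕ) : ℤ) - ((z : ℕ) : ℤ) then (1 : ℝ) else 0)
  rw [hz]
  have e : a + ((i : ℕ) : ℤ) - b - ((j : ℕ) : ℤ) =
    (a + ((i : ℕ) : ℤ) - ((z0 : ℕ) : ℤ)) - (b + ((j : ℕ) : ℤ) - ((z0 : ℕ) : ℤ)) := by ring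
  rw [e]
  simp only [dvd_sub_right hz0]

lemma gramC_posSemidef {m : ℕ} (hm : 0 < m) (A : Finset ℤ) : (gramC m A).PosSemidef := by
  rw [gramC_eq hm]
  have h := posSemidef_self_mul_conjTranspose (cyc m A)
  have e : (cyc m A)ᴴ = (cyc m A)ᵀ := by ext i j; simp
  rwa [e] at h

/-- the exponential sum -/
noncomputable def F (A : Finset ℤ) (x : ℝ) : ℂ := ∑ a ∈ A, E a x

lemma continuous_F (A : Finset ℤ) : Continuous (F A) :=
  continuous_finsetSum _ fun _ _ => continuous_E _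

private lemma E_mul_div {m : ℕ} (hm : 0 < m) (q : ℤ) (k : ℕ) : E (m * q) ((k : ℝ) / m) = 1 := by
  unfold E
  rw [Complex.exp_eq_one_iff]
  refine ⟨q * k, ?_⟩
  push_cast
  have : (m : ℂ) ≠ 0 := by exact_mod_cast hm.ne'
  field_simp

private lemma E_congr {m : ℕ} (hm : 0 < m) {x y : ℤ} (h : (m : ℤ) ∣ x - y) (k : ℕ) :
    E x ((k : ℝ) / m) = E y ((k : ℝ) / m) := by
  obtain ⟨q, hq⟩ := h
  have : x = y + m * q := by linarith
  rw [this, E_add, E_mul_div hm, mul_one]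

private lemma normSq_F (A : Finset ℤ) (x : ℝ) :
    ∑ a ∈ A, ∑ b ∈ A, E (b - a) x = ((‖F A x‖ ^ 2 : ℝ) : ℂ) := by
  have h1 : ((‖F A x‖ ^ 2 : ℝ) : ℂ) = F A x * (starRingEnd ℂ) (F A x) := by
    rw [Complex.mul_conj, Complex.normSq_eq_norm_sq]
  rw [h1]
  unfold F
  rw [map_sum, Finset.sum_mul_sum, Finset.sum_comm]
  refine Finset.sum_congr rfl fun a _ => Finset.sum_congr rfl fun b _ => ?_
  rw [conj_E, sub_eq_add_neg, E_add]

private lemma eigen {m : ℕ} (hm : 0 < m) (A : Finset ℤ) (k j : Fin m) :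
    ∑ i : Fin m, E ((i : ℕ) : ℤ) (((k : ℕ) : ℝ) / m) * ((gramC m A i j : ℝ) : ℂ) =
      ((‖F A (((k : ℕ) : ℝ) / m)‖ ^ 2 : ℝ) : ℂ) * E ((j : ℕ) : ℤ) (((k : ℕ) : ℝ) / m) := by
  simp only [gramC, Matrix.of_apply]
  push_cast
  simp_rw [Finset.mul_sum]
  rw [Finset.sum_comm]
  have hA := normSq_F A (((k : ℕ) : ℝ) / m)
  push_cast at hA
  rw [← hA, Finset.sum_mul]
  refine Finset.sum_congr rfl fun a _ => ?_
  rw [Finset.sum_comm, Finset.sum_mul]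
  refine Finset.sum_congr rfl fun b _ => ?_
  obtain ⟨z0, hz0, hz⟩ := sum_ind (R := ℂ) hm (b + ((j : ℕ) : ℤ) - a)
    (fun z : Fin m => E ((z : ℕ) : ℤ) (((k : ℕ) : ℝ) / m))
  have h1 : ∀ i : Fin m, ((m : ℤ) ∣ a + ((i : ℕ) : ℤ) - b - ((j : ℕ) : ℤ)) ↔
      (m : ℤ) ∣ b + ((j : ℕ) : ℤ) - a - ((i : ℕ) : ℤ) := by
    intro i
    rw [← dvd_neg]
    ring_nf
  have h2 : ∑ i : Fin m, E ((i : ℕ) : ℤ) (((k : ℕ) : ℝ) / m) *
      (((if (m : ℤ) ∣ a + ((i : ℕ) : ℤ) - b - ((j : ℕ) : ℤ) then 1 else 0 : ℝ)) : ℂ) =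
      ∑ z : Fin m, (if (m : ℤ) ∣ b + ((j : ℕ) : ℤ) - a - ((z : ℕ) : ℤ) then 1 else 0) *
        E ((z : ℕ) : ℤ) (((k : ℕ) : ℝ) / m) := by
    refine Finset.sum_congr rfl fun i _ => ?_
    rw [mul_comm]
    simp only [h1]
    split_ifs <;> simp
  rw [h2, hz, ← E_congr hm hz0, ← E_add]
  congr 1
  ring

theorem det_gramC {m : ℕ} (hm : 0 < m) (A : Finset ℤ) (s : ℝ) :
    (1 + s • gramC m A).det = ∏ k : Fin m, (1 + s * ‖F A (((k : ℕ) : ℝ) / m)‖ ^ 2) := by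
  apply Complex.ofReal_injective
  have hmap : (((1 + s • gramC m A).det : ℝ) : ℂ) =
      ((1 + s • gramC m A).map (Complex.ofRealHom)).det := by
    rw [← RingHom.mapMatrix_apply, ← RingHom.map_det]
    rfl
  rw [hmap]
  set M : Matrix (Fin m) (Fin m) ℂ := (1 + s • gramC m A).map (Complex.ofRealHom) with hM
  set U : Matrix (Fin m) (Fin m) ℂ := vandermonde fun k : Fin m => E 1 (((k : ℕ) : ℝ) / m) with hU
  set d : Fin m → ℂ := fun k => ((1 + s * ‖F A (((k : ℕ) : ℝ) / m)‖ ^ 2 : ℝ) : ℂ) with hd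
  have hUe : ∀ k j : Fin m, U k j = E ((j : ℕ) : ℤ) (((k : ℕ) : ℝ) / m) := by
    intro k j
    rw [hU, vandermonde_apply, E_pow, one_mul]
  have hUM : U * M = diagonal d * U := by
    ext k j
    rw [Matrix.mul_apply, Matrix.diagonal_mul]
    simp only [hM, Matrix.map_apply, Matrix.add_apply, Matrix.smul_apply, smul_eq_mul, hUe,
      map_add, map_mul, Complex.ofRealHom_eq_coe, mul_add, Finset.sum_add_distrib]
    have h1 : ∑ i : Fin m, E ((i : ℕ) : ℤ) (((k : ℕ) : ℝ) / m) *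
        (((1 : Matrix (Fin m) (Fin m) ℝ) i j : ℝ) : ℂ) = E ((j : ℕ) : ℤ) (((k : ℕ) : ℝ) / m) := by
      rw [Finset.sum_eq_single j]
      · simp
      · intro i _ hi
        rw [Matrix.one_apply_ne hi]; simp
      · simp
    have h2 : ∑ i : Fin m, E ((i : ℕ) : ℤ) (((k : ℕ) : ℝ) / m) *
        (((s : ℝ) : ℂ) * ((gramC m A i j : ℝ) : ℂ)) = (s : ℂ) *
          (((‖F A (((k : ℕ) : ℝ) / m)‖ ^ 2 : ℝ) : ℂ) * E ((j : ℕ) : ℤ) (((k : ℕ) : ℝ) / m)) := by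
      rw [← eigen hm, Finset.mul_sum]
      exact Finset.sum_congr rfl fun i _ => by ring
    rw [h1, h2, hd]
    push_cast
    ring
  have hinj : Function.Injective fun k : Fin m => E 1 (((k : ℕ) : ℝ) / m) := by
    have hprim := Complex.isPrimitiveRoot_exp m hm.ne'
    have hpow : ∀ k : Fin m, E 1 (((k : ℕ) : ℝ) / m) =
        Complex.exp (2 * Real.pi * Complex.I / m) ^ (k : ℕ) := by
      intro k
      rw [← Complex.exp_nat_mul]
      unfold E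
      congr 1
      push_cast
      ring
    intro k l hkl
    simp only [hpow] at hkl
    exact Fin.ext (hprim.pow_inj k.2 l.2 hkl)
  have hUdet : U.det ≠ 0 := det_vandermonde_ne_zero_iff.2 hinj
  have h3 := congrArg Matrix.det hUM
  rw [det_mul, det_mul, det_diagonal, mul_comm] at h3
  have h4 := mul_right_cancel₀ hUdet h3
  rw [h4, hd]
  push_cast
  rfl

end Pool.Agent.MP_d1728b_an.HL
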