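import Mathlib

/-!
# `∫_0^∞ log (1 + c² / t²) dt = π c` and the comparison of `L¹` norms
-/

set_option autoImplicit false

open Filter Topology MeasureTheory Set

namespace Pool.Agent.MP_d1728b_an.HL

/-- antiderivative -/
private noncomputable def G (c t : ℝ) : ℝ := t * Real.log (1 + c ^ 2 / t ^ 2) + 2 * c * Real.arctan (t / c)

private lemma hasDerivAt_G {c : ℝ} (hc : 0 < c) {t : ℝ} (ht : 0 < t) :
    HasDerivAt (G c) (Real.log (1 + c ^ 2 / t ^ 2)) t := by
  have hpos : (0 : ℝ) < 1 + c ^ 2 / t ^ 2 := by positivity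
  have h1 : HasDerivAt (fun t : ℝ => 1 + c ^ 2 / t ^ 2) (-(2 * c ^ 2 / t ^ 3)) t := by
    have h := (((hasDerivAt_pow 2 t).fun_inv (by positivity)).const_mul (c ^ 2)).const_add 1
    have e : (fun t : ℝ => 1 + c ^ 2 / t ^ 2) = fun x : ℝ => 1 + c ^ 2 * (x ^ 2)⁻¹ := by
      funext x; simp [div_eq_mul_inv]
    rw [e]
    refine h.congr_deriv ?_
    have := ht.ne'
    field_simp
    norm_num
    ring
  have h2 := h1.log hpos.ne'
  have h3 := (hasDerivAt_id' t).fun_mul h2
  have h4 : HasDerivAt (fun t : ℝ => 2 * c * Real.arctan (t / c))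
      (2 * c * ((1 / (1 + (t / c) ^ 2)) * (1 / c))) t := by
    have := ((hasDerivAt_id' t).div_const c).arctan
    exact this.const_mul (2 * c)
  have h5 := h3.fun_add h4
  refine h5.congr_deriv ?_
  have := ht.ne'
  have := hc.ne'
  have h6 : c ^ 2 + t ^ 2 ≠ 0 := by positivity
  field_simp
  ring

private lemma continuousWithinAt_G {c : ℝ} (hc : 0 < c) : ContinuousWithinAt (G c) (Ici 0) 0 := by
  have h1 : Continuous fun t : ℝ => (t * Real.log (t ^ 2 + c ^ 2) - 2 * (t * Real.log t)) +
      2 * c * Real.arctan (t / c) := by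
    have ha : Continuous fun t : ℝ => Real.log (t ^ 2 + c ^ 2) :=
      Continuous.log (by fun_prop) (fun t => by positivity)
    have hb : Continuous fun t : ℝ => t * Real.log t := Real.continuous_mul_log
    have hd : Continuous fun t : ℝ => Real.arctan (t / c) :=
      Real.continuous_arctan.comp (continuous_id.div_const c)
    exact ((continuous_id.mul ha).sub (continuous_const.mul hb)).add (continuous_const.mul hd)
  refine (h1.continuousWithinAt (s := Ici 0) (x := 0)).congr ?_ ?_
  · intro t ht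
    rcases eq_or_lt_of_le (show (0:ℝ) ≤ t from ht) with rfl | ht
    · simp [G]
    · unfold G
      congr 1
      have h2 : 1 + c ^ 2 / t ^ 2 = (t ^ 2 + c ^ 2) / t ^ 2 := by field_simp
      rw [h2, Real.log_div (by positivity) (by positivity), Real.log_pow]
      push_cast
      ring
  · simp [G]

private lemma tendsto_G {c : ℝ} (hc : 0 < c) : Tendsto (G c) atTop (𝓝 (Real.pi * c)) := by
  have h1 : Tendsto (fun t : ℝ => t * Real.log (1 + c ^ 2 / t ^ 2)) atTop (𝓝 0) := by
    have hz : Tendsto (fun t : ℝ => c ^ 2 / t) atTop (𝓝 0) := tendsto_const_nhds.div_atTop tendsto_id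
    refine tendsto_of_tendsto_of_tendsto_of_le_of_le' tendsto_const_nhds hz ?_ ?_
    · filter_upwards [eventually_gt_atTop 0] with t ht
      exact mul_nonneg ht.le (Real.log_nonneg (by
        have : (0:ℝ) ≤ c ^ 2 / t ^ 2 := by positivity
        linarith))
    · filter_upwards [eventually_gt_atTop 0] with t ht
      have hpos : (0 : ℝ) < 1 + c ^ 2 / t ^ 2 := by positivity
      have h2 := Real.log_le_sub_one_of_pos hpos
      have h3 : c ^ 2 / t = t * (c ^ 2 / t ^ 2) := by field_simp
      rw [h3]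
      exact mul_le_mul_of_nonneg_left (by linarith) ht.le
  have h2 : Tendsto (fun t : ℝ => 2 * c * Real.arctan (t / c)) atTop (𝓝 (2 * c * (Real.pi / 2))) := by
    have h3 : Tendsto (fun t : ℝ => t / c) atTop atTop := tendsto_id.atTop_div_const hc
    have h4 := (tendsto_nhds_of_tendsto_nhdsWithin Real.tendsto_arctan_atTop).comp h3
    exact h4.const_mul (2 * c)
  have h5 := h1.add h2
  have e : 0 + 2 * c * (Real.pi / 2) = Real.pi * c := by ring
  rw [e] at h5
  exact h5

lemma lintegral_log {c : ℝ} (hc : 0 ≤ c) :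
    ∫⁻ t in Ioi (0:ℝ), ENNReal.ofReal (Real.log (1 + c ^ 2 / t ^ 2)) =
      ENNReal.ofReal (Real.pi * c) := by
  rcases eq_or_lt_of_le hc with rfl | hc
  · simp
  · have hnn : ∀ t ∈ Ioi (0:ℝ), 0 ≤ Real.log (1 + c ^ 2 / t ^ 2) := fun t _ =>
      Real.log_nonneg (by
        have : (0:ℝ) ≤ c ^ 2 / t ^ 2 := by positivity
        linarith)
    have hd : ∀ t ∈ Ioi (0:ℝ), HasDerivAt (G c) (Real.log (1 + c ^ 2 / t ^ 2)) t :=
      fun t ht => hasDerivAt_G hc ht
    have hint := integrableOn_Ioi_deriv_of_nonneg (continuousWithinAt_G hc) hd hnn (tendsto_G hc)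
    have hval := integral_Ioi_of_hasDerivAt_of_nonneg (continuousWithinAt_G hc) hd hnn (tendsto_G hc)
    rw [← ofReal_integral_eq_lintegral_ofReal hint, hval]
    · congr 1
      simp [G]
    · exact (ae_restrict_iff' measurableSet_Ioi).2 (Filter.Eventually.of_forall hnn)

theorem l1_le {f g : ℝ → ℂ} (hf : Continuous f) (hg : Continuous g)
    (h : ∀ s : ℝ, 0 < s → ∫ x in (0:ℝ)..1, Real.log (1 + s * ‖f x‖ ^ 2) ≤
      ∫ x in (0:ℝ)..1, Real.log (1 + s * ‖g x‖ ^ 2)) :
    ∫ x in (0:ℝ)..1, ‖f x‖ ≤ ∫ x in (0:ℝ)..1, ‖g x‖ := by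
  have key : ∀ {u : ℝ → ℂ}, Continuous u →
      ENNReal.ofReal (Real.pi * ∫ x in (0:ℝ)..1, ‖u x‖) =
        ∫⁻ t in Ioi (0:ℝ), ENNReal.ofReal (∫ x in (0:ℝ)..1, Real.log (1 + (1 / t ^ 2) * ‖u x‖ ^ 2)) := by
    intro u hu
    have h1 : Real.pi * ∫ x in (0:ℝ)..1, ‖u x‖ = ∫ x in Ioc (0:ℝ) 1, Real.pi * ‖u x‖ := by
      rw [intervalIntegral.integral_of_le zero_le_one, integral_const_mul]
    have hint1 : IntegrableOn (fun x => Real.pi * ‖u x‖) (Ioc 0 1) :=
      ((continuous_const.mul hu.norm).integrableOn_Icc (a := 0) (b := 1)).mono_set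
        Ioc_subset_Icc_self
    rw [h1, ofReal_integral_eq_lintegral_ofReal hint1
      (Filter.Eventually.of_forall fun x => by positivity)]
    have h2 : ∀ x, ENNReal.ofReal (Real.pi * ‖u x‖) =
        ∫⁻ t in Ioi (0:ℝ), ENNReal.ofReal (Real.log (1 + ‖u x‖ ^ 2 / t ^ 2)) := fun x =>
      (lintegral_log (norm_nonneg _)).symm
    simp_rw [h2]
    rw [lintegral_lintegral_swap]
    · refine setLIntegral_congr_fun measurableSet_Ioi fun t ht => ?_
      have ht' : (0:ℝ) < t := ht
      have hc : Continuous fun x => Real.log (1 + (1 / t ^ 2) * ‖u x‖ ^ 2) :=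
        Continuous.log (by fun_prop) (fun x => by positivity)
      rw [intervalIntegral.integral_of_le zero_le_one, ofReal_integral_eq_lintegral_ofReal]
      · refine lintegral_congr fun x => ?_
        congr 3
        ring
      · exact (hc.integrableOn_Icc (a := 0) (b := 1)).mono_set Ioc_subset_Icc_self
      · exact Filter.Eventually.of_forall fun x => Real.log_nonneg (by
          have : (0:ℝ) ≤ (1 / t ^ 2) * ‖u x‖ ^ 2 := by positivity
          linarith)
    · apply Measurable.aemeasurable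
      apply ENNReal.measurable_ofReal.comp
      apply Real.measurable_log.comp
      have hm : Measurable u := hu.measurable
      fun_prop
  have h3 : ENNReal.ofReal (Real.pi * ∫ x in (0:ℝ)..1, ‖f x‖) ≤
      ENNReal.ofReal (Real.pi * ∫ x in (0:ℝ)..1, ‖g x‖) := by
    rw [key hf, key hg]
    refine setLIntegral_mono' measurableSet_Ioi fun t ht => ?_
    have ht' : (0:ℝ) < t := ht
    exact ENNReal.ofReal_le_ofReal (h _ (by positivity))
  have hnn : 0 ≤ ∫ x in (0:ℝ)..1, ‖g x‖ :=
    intervalIntegral.integral_nonneg zero_le_one fun x _ => norm_nonneg _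
  have h4 := (ENNReal.ofReal_le_ofReal_iff (by positivity)).1 h3
  exact le_of_mul_le_mul_left h4 Real.pi_pos

end Pool.Agent.MP_d1728b_an.HL
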