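import Pool.Agent.Lib.MP_d1728b_an.HL.Szego
import Pool.Agent.Lib.MP_d1728b_an.HL.Integral

/-!
# Reduction of the sharp Littlewood inequality to determinants of Gram matrices

`main_of_det`: if for all `s, ε > 0` and all large `n`
`det (1 + s • gramI n {0, ..., |A| - 1}) ≤ exp (ε n) * det (1 + s • gramI n A)`,
then the exponential sum over an arithmetic progression of length `|A|` has the smaller `L¹` norm.
-/

set_option autoImplicit false

open Finset Filter Topology
open Pool.Agent.Littlewood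

namespace Pool.Agent.MP_d1728b_an.HL

private lemma integral_comp_int_mul' {g : ℝ → ℝ} (hg : Function.Periodic g 1) (hc : Continuous g)
    {d : ℤ} (hd : d ≠ 0) :
    ∫ x in (0:ℝ)..1, g (d * x) = ∫ x in (0:ℝ)..1, g x := by
  have hd' : (d:ℝ) ≠ 0 := by exact_mod_cast hd
  rw [intervalIntegral.integral_comp_mul_left (fun x => g x) hd', mul_zero, mul_one]
  have h := hg.intervalIntegral_add_zsmul_eq d 0
  simp only [zero_add, zsmul_eq_mul, mul_one] at h
  rw [h (fun _ _ => hc.intervalIntegrable _ _), smul_eq_mul, ← mul_assoc, inv_mul_cancel₀ hd', one_mul]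

private lemma norm_AP' (A : Finset ℤ) (b : ℤ) {d : ℤ} (hd : d ≠ 0) :
    ∫ x in (0:ℝ)..1, ‖∑ a ∈ A, E (b + a * d) x‖ = ∫ x in (0:ℝ)..1, ‖F A x‖ := by
  have hper : Function.Periodic (fun x : ℝ => ‖F A x‖) 1 := by
    intro x
    simp only [F]
    congr 1
    refine Finset.sum_congr rfl fun a _ => ?_
    rw [E_periodic]
  have hcont : Continuous (fun x : ℝ => ‖F A x‖) := (continuous_F A).norm
  rw [← integral_comp_int_mul' hper hcont hd]
  refine intervalIntegral.integral_congr fun x _ => ?_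
  have h1 : ∑ a ∈ A, E (b + a * d) x = E b x * ∑ a ∈ A, E a (d * x) := by
    rw [Finset.mul_sum]
    refine Finset.sum_congr rfl fun a _ => ?_
    rw [E_add]
    congr 1
    unfold E
    congr 1
    push_cast
    ring
  simp only [F]
  rw [h1, norm_mul, norm_E, one_mul]

theorem norm_le_of_det (A P : Finset ℤ)
    (hdet : ∀ s : ℝ, 0 < s → ∀ ε : ℝ, 0 < ε → ∀ᶠ n : ℕ in atTop,
      (1 + s • gramI n P).det ≤ Real.exp (ε * n) * (1 + s • gramI n A).det) :
    ∫ x in (0:ℝ)..1, ‖F P x‖ ≤ ∫ x in (0:ℝ)..1, ‖F A x‖ :=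
  l1_le (continuous_F P) (continuous_F A) fun s hs => szego_le hs (hdet s hs)

theorem main_of_det (A : Finset ℤ)
    (hdet : ∀ s : ℝ, 0 < s → ∀ ε : ℝ, 0 < ε → ∀ᶠ n : ℕ in atTop,
      (1 + s • gramI n (Finset.Ico 0 (A.card : ℤ))).det ≤
        Real.exp (ε * n) * (1 + s • gramI n A).det)
    (a d : ℤ) (hd : d ≠ 0) :
    (∫ θ in (0:ℝ)..1,
          ‖∑ k ∈ Finset.range A.card,
              Complex.exp (2 * (Real.pi : ℂ) * Complex.I * (((a + d * (k : ℤ) : ℤ)) : ℂ) * (θ : ℂ))‖)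
        ≤ ∫ θ in (0:ℝ)..1,
          ‖∑ x ∈ A, Complex.exp (2 * (Real.pi : ℂ) * Complex.I * (x : ℂ) * (θ : ℂ))‖ := by
  have h1 := norm_le_of_det A (Finset.Ico 0 (A.card : ℤ)) hdet
  have h2 : ∀ θ : ℝ, ∑ k ∈ Finset.range A.card,
      Complex.exp (2 * (Real.pi : ℂ) * Complex.I * (((a + d * (k : ℤ) : ℤ)) : ℂ) * (θ : ℂ)) =
      ∑ x ∈ Finset.Ico 0 (A.card : ℤ), E (a + x * d) θ := by
    intro θ
    have h3 : Finset.Ico (0 : ℤ) (A.card : ℤ) = (Finset.range A.card).map Nat.castEmbedding := by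
      ext x
      simp only [Finset.mem_Ico, Finset.mem_map, Finset.mem_range, Nat.castEmbedding_apply]
      constructor
      · rintro ⟨h0, h1⟩
        exact ⟨x.toNat, by omega, by omega⟩
      · rintro ⟨k, hk, rfl⟩
        omega
    rw [h3, Finset.sum_map]
    refine Finset.sum_congr rfl fun k _ => ?_
    unfold E
    rw [Nat.castEmbedding_apply]
    push_cast
    ring_nf
  simp_rw [h2]
  rw [norm_AP' _ a hd]
  exact h1

end Pool.Agent.MP_d1728b_an.HL
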