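import Mathlib

/-!
# Outer factors of positive cosine polynomials (Fejér–Riesz)

`exists_outer`: a positive real cosine polynomial `w` of degree `n` is `|G|²` on the unit circle,
where `G` is a real polynomial of degree at most `n` without zeros in the closed unit disc and with
`G(0) > 0`.
-/

set_option autoImplicit false

open Polynomial Finset

namespace Pool.Agent.MP_d1728b_an.HL

/-- The cosine polynomial `r 0 + 2 * ∑_{k = 1}^n r k * Re z ^ k`. -/
noncomputable def cosPoly (n : ℕ) (r : ℕ → ℝ) (z : ℂ) : ℝ :=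
  r 0 + ∑ k ∈ range n, 2 * (r (k + 1) * (z ^ (k + 1)).re)

/-- The palindromic polynomial of degree `2 n` attached to a cosine polynomial. -/
noncomputable def palin (n : ℕ) (r : ℕ → ℝ) : ℂ[X] :=
  ∑ k ∈ range (2 * n + 1), C ((r (Int.natAbs ((k : ℤ) - n)) : ℝ) : ℂ) * X ^ k

lemma coeff_palin (n : ℕ) (r : ℕ → ℝ) (k : ℕ) :
    (palin n r).coeff k = if k ≤ 2 * n then ((r (Int.natAbs ((k : ℤ) - n)) : ℝ) : ℂ) else 0 := by
  unfold palin
  rw [finsetSum_coeff]
  simp only [coeff_C_mul, coeff_X_pow, mul_ite, mul_one, mul_zero]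
  rw [Finset.sum_ite_eq]
  simp only [Finset.mem_range]
  by_cases h : k ≤ 2 * n
  · rw [if_pos (by omega), if_pos h]
  · rw [if_neg (by omega), if_neg h]

private lemma natDegree_palin {n : ℕ} {r : ℕ → ℝ} (hr : r n ≠ 0) : (palin n r).natDegree = 2 * n := by
  apply natDegree_eq_of_le_of_coeff_ne_zero
  · rw [natDegree_le_iff_coeff_eq_zero]
    intro k hk
    rw [coeff_palin, if_neg (by omega)]
  · rw [coeff_palin, if_pos le_rfl]
    have : Int.natAbs (((2 * n : ℕ) : ℤ) - n) = n := by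
      push_cast
      omega
    rw [this]
    exact_mod_cast hr

private lemma coeff_zero_palin {n : ℕ} {r : ℕ → ℝ} (hr : r n ≠ 0) : (palin n r).coeff 0 ≠ 0 := by
  rw [coeff_palin, if_pos (by omega)]
  have : Int.natAbs (((0 : ℕ) : ℤ) - n) = n := by
    push_cast
    omega
  rw [this]
  exact_mod_cast hr

private lemma reverse_palin {n : ℕ} {r : ℕ → ℝ} (hr : r n ≠ 0) :
    (palin n r).reverse = palin n r := by
  ext k
  rw [coeff_reverse, natDegree_palin hr]
  by_cases h : k ≤ 2 * n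
  · have e : Int.natAbs (((2 * n - k : ℕ) : ℤ) - n) = Int.natAbs ((k : ℤ) - n) := by omega
    rw [revAt_le h, coeff_palin, coeff_palin, if_pos (by omega), if_pos h, e]
  · rw [revAt_eq_self_of_lt (by omega)]

private lemma conj_palin (n : ℕ) (r : ℕ → ℝ) :
    (palin n r).map (starRingEnd ℂ) = palin n r := by
  ext k
  rw [coeff_map, coeff_palin]
  split_ifs <;> simp

lemma eval_palin {n : ℕ} (r : ℕ → ℝ) {z : ℂ} (hz : ‖z‖ = 1) :
    (palin n r).eval z = z ^ n * (cosPoly n r z : ℝ) := by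
  have hzz : z * (starRingEnd ℂ) z = 1 := by
    rw [Complex.mul_conj, Complex.normSq_eq_norm_sq, hz]
    norm_num
  have h1 : (palin n r).eval z =
      ∑ k ∈ range (2 * n + 1), ((r (Int.natAbs ((k : ℤ) - n)) : ℝ) : ℂ) * z ^ k := by
    unfold palin
    rw [eval_finsetSum]
    refine Finset.sum_congr rfl fun k _ => ?_
    simp
  rw [h1]
  have h2 : 2 * n + 1 = n + (1 + n) := by ring
  rw [h2, Finset.sum_range_add, Finset.sum_range_add, Finset.sum_range_one]
  rw [← Finset.sum_range_reflect (fun k => ((r (Int.natAbs ((k : ℤ) - n)) : ℝ) : ℂ) * z ^ k) n]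
  unfold cosPoly
  push_cast
  rw [mul_add, Finset.mul_sum, ← sub_eq_zero]
  have h3 : ∀ k ∈ range n, ((r (Int.natAbs (((n - 1 - k : ℕ) : ℤ) - n)) : ℝ) : ℂ) * z ^ (n - 1 - k) +
      ((r (Int.natAbs (((n + (1 + k) : ℕ) : ℤ) - n)) : ℝ) : ℂ) * z ^ (n + (1 + k)) =
      z ^ n * (2 * (((r (k + 1) : ℝ) : ℂ) * (((z ^ (k + 1)).re : ℝ) : ℂ))) := by
    intro k hk
    have hk' : k < n := Finset.mem_range.mp hk
    have e1 : Int.natAbs (((n - 1 - k : ℕ) : ℤ) - n) = k + 1 := by omega
    have e2 : Int.natAbs (((n + (1 + k) : ℕ) : ℤ) - n) = k + 1 := by omega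
    rw [e1, e2]
    have e3 : (((z ^ (k + 1)).re : ℝ) : ℂ) = (z ^ (k + 1) + (starRingEnd ℂ) (z ^ (k + 1))) / 2 := by
      rw [Complex.re_eq_add_conj]
    rw [e3, map_pow]
    have e4 : z ^ n * ((starRingEnd ℂ) z) ^ (k + 1) = z ^ (n - 1 - k) := by
      have : n = (n - 1 - k) + (k + 1) := by omega
      conv_lhs => rw [this]
      rw [pow_add, mul_assoc, ← mul_pow, hzz, one_pow, mul_one]
    have e5 : z ^ (n + (1 + k)) = z ^ n * z ^ (k + 1) := by
      rw [pow_add, add_comm 1 k]
    rw [e5]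
    linear_combination (-((r (k + 1) : ℝ) : ℂ)) * e4
  have h4 := Finset.sum_congr rfl h3
  rw [Finset.sum_add_distrib] at h4
  have h5 : (Int.natAbs (((n + 0 : ℕ) : ℤ) - n)) = 0 := by omega
  simp only [add_zero] at h5 ⊢
  push_cast at h4 h5 ⊢
  rw [h5]
  linear_combination h4

/-! ### Roots -/

private lemma reverse_X_sub_C {a : ℂ} (ha : a ≠ 0) :
    (X - C a : ℂ[X]).reverse = C (-a) * (X - C a⁻¹) := by
  have h1 : (X - C a : ℂ[X]) = X + C (-a) := by simp [sub_eq_add_neg]
  have h2 : (X : ℂ[X]).reverse = 1 := by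
    have := reverse_X_mul (1 : ℂ[X])
    rw [mul_one] at this
    rw [this]
    have := reverse_C (1 : ℂ)
    simpa using this
  rw [h1, reverse_add_C, h2, natDegree_X, pow_one, mul_sub, ← C_mul]
  rw [neg_mul, mul_inv_cancel₀ ha]
  simp
  ring

private lemma reverse_prod (S : Multiset ℂ) (hS : (0 : ℂ) ∉ S) :
    ((S.map (fun a => (X - C a : ℂ[X]))).prod).reverse =
      C ((S.map (fun a => -a)).prod) * ((S.map (fun a => (X - C a⁻¹ : ℂ[X]))).prod) := by
  induction S using Multiset.induction_on with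
  | empty =>
    simp
    have := reverse_C (1 : ℂ)
    simpa using this
  | cons a S ih =>
    rw [Multiset.mem_cons, not_or] at hS
    rw [Multiset.map_cons, Multiset.prod_cons, reverse_mul_of_domain, ih hS.2,
      reverse_X_sub_C (Ne.symm hS.1), Multiset.map_cons, Multiset.prod_cons, Multiset.map_cons,
      Multiset.prod_cons, C_mul]
    ring

private lemma roots_inv {Q : ℂ[X]} (hQ : Q.coeff 0 ≠ 0) (hrev : Q.reverse = Q) :
    Q.roots.map (fun a => a⁻¹) = Q.roots := by
  have hQ0 : Q ≠ 0 := by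
    rintro rfl
    simp at hQ
  have h0 : (0 : ℂ) ∉ Q.roots := by
    rw [mem_roots hQ0, IsRoot.def, ← coeff_zero_eq_eval_zero]
    exact hQ
  have h1 := (IsAlgClosed.splits Q).eq_prod_roots
  have h2 : Q = C (Q.leadingCoeff * (Q.roots.map (fun a => -a)).prod) *
      (((Q.roots.map (fun a => a⁻¹)).map (fun a => (X - C a : ℂ[X]))).prod) := by
    conv_lhs => rw [← hrev, h1, reverse_mul_of_domain, reverse_C, reverse_prod _ h0]
    rw [C_mul, Multiset.map_map]
    simp only [Function.comp_def]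
    ring
  have h3 : Q.leadingCoeff * (Q.roots.map (fun a => -a)).prod ≠ 0 := by
    intro h
    rw [h, C_0, zero_mul] at h2
    exact hQ0 h2
  conv_rhs => rw [h2]
  rw [roots_C_mul _ h3, roots_multiset_prod_X_sub_C]

private lemma roots_conj {Q : ℂ[X]} (hc : Q.map (starRingEnd ℂ) = Q) :
    Q.roots.map (starRingEnd ℂ) = Q.roots := by
  have h := (IsAlgClosed.splits Q).roots_map (starRingEnd ℂ)
  rw [hc] at h
  exact h.symm

/-- The real polynomial below a polynomial with conjugation invariant roots. -/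
private lemma lift_real {P : ℂ[X]} (hP : P.map (starRingEnd ℂ) = P) :
    ∃ G : ℝ[X], G.map (algebraMap ℝ ℂ) = P := by
  have h : P ∈ lifts (algebraMap ℝ ℂ) := by
    rw [lifts_iff_coeff_lifts]
    intro n
    have h1 : (starRingEnd ℂ) (P.coeff n) = P.coeff n := by
      conv_rhs => rw [← hP]
      rw [coeff_map]
    rw [Complex.conj_eq_iff_real] at h1
    obtain ⟨x, hx⟩ := h1
    exact ⟨x, hx.symm⟩
  exact (mem_lifts P).mp h

private lemma factor {n : ℕ} {r : ℕ → ℝ} (hr : r n ≠ 0)
    (hpos : ∀ z : ℂ, ‖z‖ = 1 → 0 < cosPoly n r z) :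
    ∃ G : ℝ[X], G.natDegree ≤ n ∧ 0 < G.coeff 0 ∧ (∀ z : ℂ, ‖z‖ ≤ 1 → aeval z G ≠ 0) ∧
      ∀ z : ℂ, ‖z‖ = 1 → ‖aeval z G‖ ^ 2 = cosPoly n r z := by
  set Q := palin n r with hQdef
  have hc0 : Q.coeff 0 ≠ 0 := coeff_zero_palin hr
  have hQ0 : Q ≠ 0 := by
    intro h
    rw [h] at hc0
    simp at hc0
  have hdeg : Q.natDegree = 2 * n := natDegree_palin hr
  have hev : ∀ z : ℂ, ‖z‖ = 1 → ‖Q.eval z‖ = cosPoly n r z := by
    intro z hz
    rw [hQdef, eval_palin r hz, norm_mul, norm_pow, hz, one_pow, one_mul, Complex.norm_real,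
      Real.norm_eq_abs, abs_of_pos (hpos z hz)]
  set S := Q.roots with hS
  have hSinv : S.map (fun a => a⁻¹) = S := roots_inv hc0 (reverse_palin hr)
  have hSconj : S.map (starRingEnd ℂ) = S := roots_conj (conj_palin n r)
  have hS0 : ∀ a ∈ S, a ≠ 0 := by
    rintro a ha rfl
    rw [hS, mem_roots hQ0, IsRoot.def, ← coeff_zero_eq_eval_zero] at ha
    exact hc0 ha
  have hS1 : ∀ a ∈ S, ‖a‖ ≠ 1 := by
    intro a ha h1
    rw [hS, mem_roots hQ0, IsRoot.def] at ha
    have := hev a h1
    rw [ha, norm_zero] at this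
    have h2 := hpos a h1
    linarith
  set out := S.filter (fun a => 1 < ‖a‖) with hout
  have hin : S.filter (fun a => ¬ 1 < ‖a‖) = out.map (fun a => a⁻¹) := by
    conv_lhs => rw [← hSinv]
    rw [Multiset.filter_map]
    congr 1
    apply Multiset.filter_congr
    intro a ha
    simp only [Function.comp_apply, norm_inv, not_lt]
    have h0 : 0 < ‖a‖ := norm_pos_iff.mpr (hS0 a ha)
    have h1 := hS1 a ha
    constructor
    · intro h
      rw [inv_le_one₀ h0] at h
      exact lt_of_le_of_ne h (Ne.symm h1)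
    · intro h
      rw [inv_le_one₀ h0]
      exact h.le
  have hsplit : S = out + out.map (fun a => a⁻¹) := by
    rw [← hin]
    exact (Multiset.filter_add_not _ S).symm
  have houtconj : out.map (starRingEnd ℂ) = out := by
    conv_rhs => rw [hout, ← hSconj]
    rw [Multiset.filter_map, hout]
    congr 1
    apply Multiset.filter_congr
    intro a _
    simp [Function.comp_apply]
  have hcard : Multiset.card out = n := by
    have h1 : Multiset.card S = 2 * n := by
      rw [hS, ← hdeg]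
      exact (IsAlgClosed.splits Q).natDegree_eq_card_roots.symm
    rw [hsplit, Multiset.card_add, Multiset.card_map] at h1
    omega
  set P : ℂ[X] := (out.map (fun a => (X - C a : ℂ[X]))).prod with hP
  have hPconj : P.map (starRingEnd ℂ) = P := by
    rw [hP, Polynomial.map_multiset_prod, Multiset.map_map]
    conv_rhs => rw [← houtconj]
    rw [Multiset.map_map]
    congr 1
    apply Multiset.map_congr rfl
    intro a _
    simp [Function.comp_apply]
  obtain ⟨G₀, hG₀⟩ := lift_real hPconj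
  have hPev : ∀ z : ℂ, P.eval z = (out.map (fun a => z - a)).prod := by
    intro z
    rw [hP, eval_multiset_prod, Multiset.map_map]
    simp
  have hG₀ev : ∀ z : ℂ, aeval z G₀ = P.eval z := by
    intro z
    rw [← hG₀, eval_map, aeval_def]
  have hPne : ∀ z : ℂ, ‖z‖ ≤ 1 → P.eval z ≠ 0 := by
    intro z hz
    rw [hPev]
    apply Multiset.prod_ne_zero
    intro h
    rw [Multiset.mem_map] at h
    obtain ⟨a, ha, h1⟩ := h
    rw [hout, Multiset.mem_filter] at ha
    rw [sub_eq_zero] at h1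
    rw [h1] at hz
    linarith [ha.2]
  have hnorm : ∀ (M : Multiset ℂ) (f : ℂ → ℂ), ‖(M.map f).prod‖ = (M.map (fun a => ‖f a‖)).prod := by
    intro M f
    have := map_multiset_prod (normHom : ℂ →*₀ ℝ) (M.map f)
    rw [Multiset.map_map] at this
    exact this
  set K : ℝ := ‖Q.leadingCoeff‖ * (out.map (fun a => ‖a‖⁻¹)).prod with hK
  have hw : ∀ z : ℂ, ‖z‖ = 1 → cosPoly n r z = K * ‖P.eval z‖ ^ 2 := by
    intro z hz
    have h1 : Q.eval z = Q.leadingCoeff * ((out.map (fun a => z - a)).prod *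
        (out.map (fun a => z - a⁻¹)).prod) := by
      rw [(IsAlgClosed.splits Q).eval_eq_prod_roots, ← hS]
      congr 1
      rw [hsplit, Multiset.map_add, Multiset.prod_add, Multiset.map_map]
      congr 2
    have hzz : (starRingEnd ℂ) z * z = 1 := by
      rw [mul_comm, Complex.mul_conj, Complex.normSq_eq_norm_sq, hz]
      norm_num
    have h3 : (out.map (fun a => ‖z * a - 1‖)).prod = (out.map (fun a => ‖z - a‖)).prod := by
      conv_lhs => rw [← houtconj]
      rw [Multiset.map_map]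
      congr 1
      apply Multiset.map_congr rfl
      intro a _
      simp only [Function.comp_apply]
      have e1 : z * (starRingEnd ℂ) a - 1 = (starRingEnd ℂ) ((starRingEnd ℂ) z * a - 1) := by
        simp
      have e2 : ‖(starRingEnd ℂ) z * a - 1‖ = ‖((starRingEnd ℂ) z * a - 1) * z‖ := by
        rw [norm_mul, hz, mul_one]
      have e3 : ((starRingEnd ℂ) z * a - 1) * z = a - z := by
        linear_combination a * hzz
      rw [e1, RCLike.norm_conj, e2, e3, norm_sub_rev]
    have h2 : ‖(out.map (fun a => z - a⁻¹)).prod‖ =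
        (out.map (fun a => ‖a‖⁻¹)).prod * ‖(out.map (fun a => z - a)).prod‖ := by
      rw [hnorm, hnorm, ← h3, ← Multiset.prod_map_mul]
      congr 1
      apply Multiset.map_congr rfl
      intro a ha
      have ha0 : a ≠ 0 := hS0 a (Multiset.mem_of_mem_filter ha)
      have e1 : z - a⁻¹ = a⁻¹ * (z * a - 1) := by
        field_simp
      rw [e1, norm_mul, norm_inv]
    rw [← hev z hz, h1, norm_mul, norm_mul, h2, hPev, hK]
    ring
  have hKpos : 0 < K := by
    have h1 := hpos 1 (by simp)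
    rw [hw 1 (by simp)] at h1
    by_contra h
    push Not at h
    nlinarith [sq_nonneg ‖P.eval 1‖]
  have hG₀0 : G₀.coeff 0 ≠ 0 := by
    intro h
    apply hPne 0 (by simp)
    rw [← hG₀ev]
    have h2 : aeval (0:ℂ) G₀ = ((G₀.coeff 0 : ℝ) : ℂ) := by
      rw [aeval_def, eval₂_at_zero]
      rfl
    rw [h2, h]
    simp
  obtain ⟨c, hc, hc2⟩ : ∃ c : ℝ, 0 < c * G₀.coeff 0 ∧ c ^ 2 = K := by
    rcases lt_or_gt_of_ne hG₀0 with h | h
    · exact ⟨-Real.sqrt K, by nlinarith [Real.sqrt_pos.mpr hKpos], by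
        rw [neg_sq, Real.sq_sqrt hKpos.le]⟩
    · exact ⟨Real.sqrt K, mul_pos (Real.sqrt_pos.mpr hKpos) h, Real.sq_sqrt hKpos.le⟩
  have hc0' : c ≠ 0 := by
    rintro rfl
    simp at hc
  refine ⟨C c * G₀, ?_, ?_, ?_, ?_⟩
  · have h1 : G₀.natDegree = n := by
      have h2 : (G₀.map (algebraMap ℝ ℂ)).natDegree = G₀.natDegree :=
        natDegree_map_eq_of_injective (algebraMap ℝ ℂ).injective _
      rw [← h2, hG₀, hP, natDegree_multiset_prod_X_sub_C_eq_card, hcard]
    exact (natDegree_C_mul_le _ _).trans h1.le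
  · rw [coeff_C_mul]
    exact hc
  · intro z hz
    rw [map_mul, aeval_C, hG₀ev]
    exact mul_ne_zero (by simpa using hc0') (hPne z hz)
  · intro z hz
    rw [map_mul, aeval_C, hG₀ev, norm_mul, mul_pow, hw z hz, ← hc2]
    congr 1
    simp

/-- **Fejér–Riesz** for positive real cosine polynomials, with a real outer factor. -/
theorem exists_outer (n : ℕ) (r : ℕ → ℝ) (hpos : ∀ z : ℂ, ‖z‖ = 1 → 0 < cosPoly n r z) :
    ∃ G : ℝ[X], G.natDegree ≤ n ∧ 0 < G.coeff 0 ∧ (∀ z : ℂ, ‖z‖ ≤ 1 → aeval z G ≠ 0) ∧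
      ∀ z : ℂ, ‖z‖ = 1 → ‖aeval z G‖ ^ 2 = cosPoly n r z := by
  induction n with
  | zero =>
    by_cases h : r 0 = 0
    · have := hpos 1 (by simp)
      simp [cosPoly, h] at this
    · exact factor h hpos
  | succ n ih =>
    by_cases h : r (n + 1) = 0
    · have h1 : ∀ z : ℂ, cosPoly (n + 1) r z = cosPoly n r z := by
        intro z
        unfold cosPoly
        rw [Finset.sum_range_succ, h]
        ring
      obtain ⟨G, h2, h3, h4, h5⟩ := ih (fun z hz => by rw [← h1 z]; exact hpos z hz)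
      exact ⟨G, by omega, h3, h4, fun z hz => by rw [h5 z hz, h1]⟩
    · exact factor h hpos

end Pool.Agent.MP_d1728b_an.HL
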