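import Mathlib

/-!
# Riemann sums of a continuous function on `[0, 1]`
-/

set_option autoImplicit false

open Filter Topology Finset

namespace Pool.Agent.MP_d1728b_an.HL

theorem tendsto_riemann {g : ℝ → ℝ} (hg : Continuous g) :
    Tendsto (fun m : ℕ => (∑ k ∈ range m, g ((k : ℝ) / m)) / m) atTop
      (𝓝 (∫ x in (0:ℝ)..1, g x)) := by
  rw [Metric.tendsto_atTop]
  intro ε hε
  have huc : UniformContinuousOn g (Set.Icc 0 1) :=
    isCompact_Icc.uniformContinuousOn_of_continuous hg.continuousOn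
  rw [Metric.uniformContinuousOn_iff] at huc
  obtain ⟨δ, hδ, hδ'⟩ := huc (ε / 2) (by positivity)
  obtain ⟨M, hM⟩ := exists_nat_gt (1 / δ)
  refine ⟨M + 1, fun m hm => ?_⟩
  have hm0 : 0 < m := by omega
  have hmR : (0 : ℝ) < m := by exact_mod_cast hm0
  have hmδ : 1 / (m : ℝ) < δ := by
    rw [div_lt_iff₀ hmR]
    rw [div_lt_iff₀ hδ] at hM
    have : (M : ℝ) ≤ m := by exact_mod_cast (by omega : M ≤ m)
    nlinarith
  have hsum : ∑ k ∈ range m, ∫ x in ((k : ℝ) / m)..(((k + 1 : ℕ) : ℝ) / m), g x =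
      ∫ x in (0:ℝ)..1, g x := by
    have := intervalIntegral.sum_integral_adjacent_intervals (f := g) (μ := MeasureTheory.volume)
      (a := fun k : ℕ => (k : ℝ) / m) (n := m) (fun k _ => hg.intervalIntegrable _ _)
    rw [this]
    congr 1
    · simp
    · exact div_self hmR.ne'
  rw [Real.dist_eq, ← hsum, Finset.sum_div, ← Finset.sum_sub_distrib]
  have hpiece : ∀ k ∈ range m, |g ((k : ℝ) / m) / m -
      ∫ x in ((k : ℝ) / m)..(((k + 1 : ℕ) : ℝ) / m), g x| ≤ ε / 2 * (1 / m) := by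
    intro k hk
    rw [Finset.mem_range] at hk
    have hkm : ((k + 1 : ℕ) : ℝ) / m - (k : ℝ) / m = 1 / m := by push_cast; ring
    have hle : (k : ℝ) / m ≤ ((k + 1 : ℕ) : ℝ) / m := by
      have : (0 : ℝ) < 1 / m := by positivity
      linarith
    have hc : g ((k : ℝ) / m) / m =
        ∫ _x in ((k : ℝ) / m)..(((k + 1 : ℕ) : ℝ) / m), g ((k : ℝ) / m) := by
      rw [intervalIntegral.integral_const, hkm, smul_eq_mul]; ring
    rw [hc, ← intervalIntegral.integral_sub (by simp) (hg.intervalIntegrable _ _)]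
    have hb := intervalIntegral.norm_integral_le_of_norm_le_const
      (a := (k : ℝ) / m) (b := ((k + 1 : ℕ) : ℝ) / m) (C := ε / 2)
      (f := fun x => g ((k : ℝ) / m) - g x) (by
        intro x hx
        rw [Set.uIoc_of_le hle] at hx
        have h0 : (0 : ℝ) ≤ (k : ℝ) / m := by positivity
        have h1 : ((k + 1 : ℕ) : ℝ) / m ≤ 1 := by
          rw [div_le_one hmR]
          exact_mod_cast hk
        have := hδ' ((k : ℝ) / m) ⟨h0, hle.trans h1⟩ x ⟨h0.trans hx.1.le, hx.2.trans h1⟩ (by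
          rw [Real.dist_eq, abs_sub_comm, abs_of_nonneg (by linarith [hx.1])]
          linarith [hx.2])
        rw [dist_eq_norm] at this
        exact this.le)
    rw [hkm, abs_of_pos (by positivity), Real.norm_eq_abs] at hb
    exact hb
  calc |∑ k ∈ range m, (g ((k : ℝ) / m) / m -
        ∫ x in ((k : ℝ) / m)..(((k + 1 : ℕ) : ℝ) / m), g x)|
      ≤ ∑ k ∈ range m, |g ((k : ℝ) / m) / m -
        ∫ x in ((k : ℝ) / m)..(((k + 1 : ℕ) : ℝ) / m), g x| := Finset.abs_sum_le_sum_abs _ _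
    _ ≤ ∑ _k ∈ range m, ε / 2 * (1 / m) := Finset.sum_le_sum hpiece
    _ = ε / 2 := by
        rw [Finset.sum_const, Finset.card_range, nsmul_eq_mul]
        field_simp
    _ < ε := by linarith

end Pool.Agent.MP_d1728b_an.HL
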