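import Pool.Agent.Lib.MP_d1728b_an.HL.Gram
import Pool.Agent.Lib.MP_d1728b_an.HL.Block
import Pool.Agent.Lib.MP_d1728b_an.HL.Riemann

/-!
# From determinants of Gram matrices to `∫ log (1 + s |F|²)`
-/

set_option autoImplicit false

open Matrix Finset Filter Topology
open Pool.Agent.Littlewood

namespace Pool.Agent.MP_d1728b_an.HL

private lemma gramC_symm (m : ℕ) (A : Finset ℤ) : (gramC m A)ᵀ = gramC m A := by
  ext i j
  simp only [gramC, Matrix.transpose_apply, Matrix.of_apply]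
  rw [Finset.sum_comm]
  refine Finset.sum_congr rfl fun a _ => Finset.sum_congr rfl fun b _ => ?_
  have : (m : ℤ) ∣ b + ((j : ℕ) : ℤ) - a - ((i : ℕ) : ℤ) ↔
      (m : ℤ) ∣ a + ((i : ℕ) : ℤ) - b - ((j : ℕ) : ℤ) := by
    rw [← dvd_neg]
    ring_nf
  simp only [this]

private lemma entry {m D : ℕ} {A : Finset ℤ} (hD : ∀ a ∈ A, ∀ b ∈ A, |a - b| ≤ D) (x : ℤ)
    (hx : |x| + D < m) :
    ∑ a ∈ A, ∑ b ∈ A, (if (m : ℤ) ∣ a - b + x then (1 : ℝ) else 0) =
      ((A.filter (fun a => a + x ∈ A)).card : ℝ) := by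
  rw [Finset.card_filter]
  push_cast
  refine Finset.sum_congr rfl fun a ha => ?_
  have h1 : ∀ b ∈ A, ((m : ℤ) ∣ a - b + x ↔ b = a + x) := by
    intro b hb
    have h2 := hD a ha b hb
    constructor
    · intro h
      have h3 : |a - b + x| < m := by
        have := abs_add_le (a - b) x
        omega
      have h4 := Int.eq_zero_of_abs_lt_dvd h h3
      linarith
    · rintro rfl
      simp
  by_cases hax : a + x ∈ A
  · rw [if_pos hax, Finset.sum_eq_single (a + x)]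
    · rw [if_pos ((h1 _ hax).2 rfl)]
    · intro b hb hne
      rw [if_neg (fun h => hne ((h1 b hb).1 h))]
    · intro h; exact absurd hax h
  · rw [if_neg hax]
    refine Finset.sum_eq_zero fun b hb => ?_
    rw [if_neg]
    intro h
    exact hax (((h1 b hb).1 h) ▸ hb)

theorem det_bounds {A : Finset ℤ} {n D : ℕ} (hn : 0 < n)
    (hD : ∀ a ∈ A, ∀ b ∈ A, |a - b| ≤ D) {s : ℝ} (hs : 0 < s) :
    0 < (1 + s • gramI n A).det ∧
    (1 + s • gramI n A).det ≤ ∏ k : Fin (n + D), (1 + s * ‖F A (((k : ℕ) : ℝ) / ((n + D : ℕ) : ℝ))‖ ^ 2) ∧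
    ∏ k : Fin (n + D), (1 + s * ‖F A (((k : ℕ) : ℝ) / ((n + D : ℕ) : ℝ))‖ ^ 2) ≤
      (1 + s • gramI n A).det * (D * (1 + s * A.card)) ^ D := by
  have hm : 0 < n + D := by omega
  rw [← det_gramC hm A s]
  set e : Fin n ⊕ Fin D ≃ Fin (n + D) := finSumFinEquiv with he
  set M : Matrix (Fin n ⊕ Fin D) (Fin n ⊕ Fin D) ℝ := (gramC (n + D) A).submatrix e e with hM
  have hdet : (1 + s • gramC (n + D) A).det = (1 + s • M).det := by
    rw [← Matrix.det_submatrix_equiv_self e (1 + s • gramC (n + D) A)]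
    congr 1
    rw [Matrix.submatrix_add, Matrix.submatrix_smul]
    simp only [Pi.add_apply, Pi.smul_apply, Matrix.submatrix_one_equiv]
    rfl
  have hMt : Mᵀ = M := by
    rw [hM, Matrix.transpose_submatrix, gramC_symm]
  have hpsd : M.PosSemidef := (gramC_posSemidef hm A).submatrix e
  have h11 : M.toBlocks₁₁ = gramI n A := by
    ext i j
    simp only [Matrix.toBlocks₁₁, hM, he, Matrix.of_apply, Matrix.submatrix_apply,
      finSumFinEquiv_apply_left, gramC, gramI, Fin.val_castAdd]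
    rw [← entry (m := n + D) hD (((i : ℕ) : ℤ) - ((j : ℕ) : ℤ))]
    · refine Finset.sum_congr rfl fun a _ => Finset.sum_congr rfl fun b _ => ?_
      have : a + ((i : ℕ) : ℤ) - b - ((j : ℕ) : ℤ) = a - b + (((i : ℕ) : ℤ) - ((j : ℕ) : ℤ)) := by ring
      exact if_congr (by rw [this]) rfl rfl
    · have := i.2
      have := j.2
      push_cast
      rw [add_lt_add_iff_right, abs_lt]
      constructor <;> omega
  have h22 : (1 + s • M).toBlocks₂₂.trace = D * (1 + s * A.card) := by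
    rw [Matrix.trace]
    have : ∀ i : Fin D, (1 + s • M).toBlocks₂₂.diag i = 1 + s * A.card := by
      intro i
      simp only [Matrix.diag_apply, Matrix.toBlocks₂₂, Matrix.of_apply, Matrix.add_apply,
        Matrix.smul_apply, Matrix.one_apply_eq, smul_eq_mul, hM, Matrix.submatrix_apply, gramC]
      congr 2
      have h0 := entry (m := n + D) hD 0 (by simp; omega)
      simp only [add_zero] at h0
      rw [Finset.filter_true_of_mem (fun a ha => ha)] at h0
      rw [← h0]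
      refine Finset.sum_congr rfl fun a _ => Finset.sum_congr rfl fun b _ => ?_
      have : a + (((e (Sum.inr i)) : ℕ) : ℤ) - b - (((e (Sum.inr i)) : ℕ) : ℤ) = a - b := by ring
      exact if_congr (by rw [this]) rfl rfl
    rw [Finset.sum_congr rfl fun i _ => this i, Finset.sum_const, Finset.card_univ, Fintype.card_fin,
      nsmul_eq_mul]
  have h1M : (1 + s • M).toBlocks₁₁ = 1 + s • gramI n A := by
    rw [← h11]
    ext i j
    simp [Matrix.toBlocks₁₁, Matrix.one_apply]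
  have hfb : fromBlocks (1 + s • gramI n A) (1 + s • M).toBlocks₁₂ ((1 + s • M).toBlocks₁₂)ᵀ
      (1 + s • M).toBlocks₂₂ = 1 + s • M := by
    rw [← h1M]
    have h21 : ((1 + s • M).toBlocks₁₂)ᵀ = (1 + s • M).toBlocks₂₁ := by
      ext i j
      have := congrFun (congrFun hMt (Sum.inr i)) (Sum.inl j)
      simp only [Matrix.transpose_apply] at this
      simp [Matrix.toBlocks₁₂, Matrix.toBlocks₂₁, this]
    rw [h21, Matrix.fromBlocks_toBlocks]
  have hblock := det_block (A := 1 + s • gramI n A) (B := (1 + s • M).toBlocks₁₂)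
    (D := (1 + s • M).toBlocks₂₂) (by
      rw [hfb, add_sub_cancel_left]
      exact hpsd.smul hs.le)
  rw [hfb, h22, Fintype.card_fin, ← hdet] at hblock
  exact hblock

private lemma exists_diam (A : Finset ℤ) : ∃ D₀ : ℕ, ∀ D : ℕ, D₀ ≤ D → ∀ a ∈ A, ∀ b ∈ A,
    |a - b| ≤ D := by
  refine ⟨∑ a ∈ A, ∑ b ∈ A, (a - b).natAbs, fun D hD a ha b hb => ?_⟩
  have h1 : (a - b).natAbs ≤ ∑ b ∈ A, (a - b).natAbs :=
    Finset.single_le_sum (f := fun b => (a - b).natAbs) (fun _ _ => Nat.zero_le _) hb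
  have h2 : ∑ b ∈ A, (a - b).natAbs ≤ ∑ a ∈ A, ∑ b ∈ A, (a - b).natAbs :=
    Finset.single_le_sum (f := fun a => ∑ b ∈ A, (a - b).natAbs) (fun _ _ => Nat.zero_le _) ha
  rw [Int.abs_eq_natAbs]
  exact_mod_cast (h1.trans h2).trans hD

theorem szego_le {A P : Finset ℤ} {s : ℝ} (hs : 0 < s)
    (hdet : ∀ ε : ℝ, 0 < ε → ∀ᶠ n : ℕ in atTop,
      (1 + s • gramI n P).det ≤ Real.exp (ε * n) * (1 + s • gramI n A).det) :
    ∫ x in (0:ℝ)..1, Real.log (1 + s * ‖F P x‖ ^ 2) ≤
      ∫ x in (0:ℝ)..1, Real.log (1 + s * ‖F A x‖ ^ 2) := by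
  obtain ⟨D₁, hD₁⟩ := exists_diam A
  obtain ⟨D₂, hD₂⟩ := exists_diam P
  set D : ℕ := max 1 (max D₁ D₂) with hDdef
  have hD1 : 1 ≤ D := le_max_left _ _
  have hDA := hD₁ D ((le_max_left _ _).trans (le_max_right _ _))
  have hDP := hD₂ D ((le_max_right _ _).trans (le_max_right _ _))
  set LA : ℕ → ℝ := fun m => ∑ k ∈ range m, Real.log (1 + s * ‖F A ((k : ℝ) / m)‖ ^ 2) with hLA
  set LP : ℕ → ℝ := fun m => ∑ k ∈ range m, Real.log (1 + s * ‖F P ((k : ℝ) / m)‖ ^ 2) with hLP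
  set C : ℝ := D * Real.log (D * (1 + s * P.card)) with hC
  have hcont : ∀ B : Finset ℤ, Continuous fun x => Real.log (1 + s * ‖F B x‖ ^ 2) := fun B =>
    Continuous.log (continuous_const.add (continuous_const.mul ((continuous_F B).norm.pow 2)))
      (fun x => by positivity)
  have hprod : ∀ (B : Finset ℤ) (m : ℕ),
      Real.log (∏ k : Fin m, (1 + s * ‖F B (((k : ℕ) : ℝ) / (m : ℝ))‖ ^ 2)) =
        ∑ k ∈ range m, Real.log (1 + s * ‖F B ((k : ℝ) / m)‖ ^ 2) := by
    intro B m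
    rw [Real.log_prod (fun k _ => by positivity),
      Finset.sum_range fun k : ℕ => Real.log (1 + s * ‖F B ((k : ℝ) / m)‖ ^ 2)]
  have hTA : Tendsto (fun n : ℕ => LA (n + D) / ((n + D : ℕ) : ℝ)) atTop
      (𝓝 (∫ x in (0:ℝ)..1, Real.log (1 + s * ‖F A x‖ ^ 2))) :=
    (tendsto_riemann (hcont A)).comp (tendsto_add_atTop_nat D)
  have hTP : Tendsto (fun n : ℕ => LP (n + D) / ((n + D : ℕ) : ℝ)) atTop
      (𝓝 (∫ x in (0:ℝ)..1, Real.log (1 + s * ‖F P x‖ ^ 2))) :=
    (tendsto_riemann (hcont P)).comp (tendsto_add_atTop_nat D)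
  have hTC : Tendsto (fun n : ℕ => C / ((n + D : ℕ) : ℝ)) atTop (𝓝 0) :=
    (tendsto_const_div_atTop_nhds_zero_nat C).comp (tendsto_add_atTop_nat D)
  refine le_of_forall_pos_le_add fun ε hε => ?_
  have hlim := (hTA.add hTC).add_const ε
  rw [add_zero] at hlim
  refine le_of_tendsto_of_tendsto hTP hlim ?_
  filter_upwards [hdet ε hε, eventually_gt_atTop 0] with n hn hn0
  obtain ⟨a1, a2, _⟩ := det_bounds hn0 hDA hs
  obtain ⟨p1, _, p3⟩ := det_bounds hn0 hDP hs
  have hnD : (0 : ℝ) < ((n + D : ℕ) : ℝ) := by exact_mod_cast (by omega : 0 < n + D)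
  have hprodP : 0 < ∏ k : Fin (n + D), (1 + s * ‖F P (((k : ℕ) : ℝ) / ((n + D : ℕ) : ℝ))‖ ^ 2) :=
    Finset.prod_pos fun k _ => by positivity
  have hK : (0 : ℝ) < D * (1 + s * P.card) := by
    have : (0 : ℝ) < D := by exact_mod_cast hD1
    positivity
  have h1 : LP (n + D) ≤ Real.log ((1 + s • gramI n P).det) + C := by
    rw [hLP, hC]
    simp only
    rw [← hprod P (n + D), ← Real.log_pow, ← Real.log_mul p1.ne' (by positivity)]
    exact Real.log_le_log hprodP p3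
  have h2 : Real.log ((1 + s • gramI n P).det) ≤ ε * n + LA (n + D) := by
    rw [hLA]
    simp only
    rw [← hprod A (n + D), ← Real.log_exp (ε * n), ← Real.log_mul (Real.exp_pos _).ne'
      (lt_of_lt_of_le a1 a2).ne']
    exact Real.log_le_log p1 (hn.trans (mul_le_mul_of_nonneg_left a2 (Real.exp_pos _).le))
  have h3 : LP (n + D) ≤ LA (n + D) + C + ε * ((n + D : ℕ) : ℝ) := by
    have : ε * (n : ℝ) ≤ ε * ((n + D : ℕ) : ℝ) := by
      push_cast
      have : (0 : ℝ) ≤ D := by positivity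
      nlinarith
    linarith
  calc LP (n + D) / ((n + D : ℕ) : ℝ) ≤ (LA (n + D) + C + ε * ((n + D : ℕ) : ℝ)) / ((n + D : ℕ) : ℝ) :=
        div_le_div_of_nonneg_right h3 hnD.le
    _ = LA (n + D) / ((n + D : ℕ) : ℝ) + C / ((n + D : ℕ) : ℝ) + ε := by
        field_simp

end Pool.Agent.MP_d1728b_an.HL
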