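import Pool.Agent.Lib.MP_d1728b_an.HL.CertMain
import Pool.Agent.Lib.MP_d1728b_an.HL.OuterAP

/-!
# Weak certificates

If `h` is an analytic polynomial with `∫ |h|² / (1 + s |F_A|²) ≤ 1`, then
`log |h(0)|² ≤ ∫ log (1 + s |F_A|²)` (Jensen's inequality twice). The hypothesis holds as soon as
there is some `q` with `∫ |h - √s conj (F_A) q|² + |q|² ≤ 1`.

* `log_le_of_weak`, `log_le_of_dual`: for one set `A` (vector valued polynomials, error `ε`);
* `main_of_weak`, `main_of_dual`: the resulting forms of the sharp inequality for `A`;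
* `main_of_weak_gaps`: the same with universal polynomials in the gap variables;
* `ladder`, `main_of_ladder`: the explicit polynomial built from the outer factor of
  `1 + s |F_P|²`: if `∫ |ladder|² / w ≤ 1` for all gap sequences, then the sharp inequality holds.
-/

set_option autoImplicit false

open Finset Filter Topology MeasureTheory
open Pool.Agent.Littlewood

namespace Pool.Agent.MP_d1728b_an.HL

lemma continuous_eval_E (p : Polynomial ℂ) : Continuous fun x : ℝ => p.eval (E 1 x) :=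
  p.continuous.comp (continuous_E 1)

/-- Jensen's inequality twice, vector valued, with an error term. -/
theorem jensen_weak {ι : Type} (K : Finset ι) (p : ι → Polynomial ℂ) (w : ℝ → ℝ)
    (hw : Continuous w) (hw1 : ∀ x, 1 ≤ w x) {ε : ℝ} (hε : 0 ≤ ε)
    (hI : ∫ x in (0:ℝ)..1, (∑ k ∈ K, ‖(p k).eval (E 1 x)‖ ^ 2) / w x ≤ 1 + ε) :
    Real.log (∑ k ∈ K, ‖(p k).eval 0‖ ^ 2) ≤ (∫ x in (0:ℝ)..1, Real.log (w x)) + ε := by
  set S : ℝ → ℝ := fun x => ∑ k ∈ K, ‖(p k).eval (E 1 x)‖ ^ 2 with hS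
  have hSc : Continuous S :=
    continuous_finsetSum _ fun k _ => (continuous_eval_E (p k)).norm.pow 2
  have hwpos : ∀ x, 0 < w x := fun x => lt_of_lt_of_le one_pos (hw1 x)
  have hS0 : ∀ x, 0 ≤ S x := fun x => Finset.sum_nonneg fun k _ => by positivity
  have hq : Continuous fun x => S x / w x := hSc.div hw fun x => (hwpos x).ne'
  have hlog : Continuous fun x => Real.log (w x) := Continuous.log hw fun x => (hwpos x).ne'
  have hlogint : 0 ≤ ∫ x in (0:ℝ)..1, Real.log (w x) :=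
    intervalIntegral.integral_nonneg zero_le_one fun x _ => Real.log_nonneg (hw1 x)
  set C2 : ℝ := ∑ k ∈ K, ‖(p k).eval 0‖ ^ 2 with hC2
  have hC0 : 0 ≤ C2 := Finset.sum_nonneg fun k _ => by positivity
  rcases eq_or_lt_of_le hC0 with h0 | hpos
  · rw [← h0, Real.log_zero]
    linarith
  have key := jensen_vec K (fun k => Polynomial.C ((Real.exp 1 : ℝ) : ℂ) * p k)
    (fun x => Real.exp 2 * (w x * Real.exp (S x / w x - 1)))
    (continuous_const.mul (hw.mul (Real.continuous_exp.comp (hq.sub continuous_const))))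
    (fun x => by
      have h1 : Real.exp (-1) ≤ Real.exp (S x / w x - 1) := by
        apply Real.exp_le_exp.2
        have : 0 ≤ S x / w x := div_nonneg (hS0 x) (hwpos x).le
        linarith
      have h2 : 1 * Real.exp (-1) ≤ w x * Real.exp (S x / w x - 1) :=
        mul_le_mul (hw1 x) h1 (Real.exp_pos _).le (hwpos x).le
      calc (1:ℝ) ≤ Real.exp 1 := Real.one_le_exp (by norm_num)
        _ = Real.exp 2 * (1 * Real.exp (-1)) := by
          rw [one_mul, ← Real.exp_add]; norm_num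
        _ ≤ _ := mul_le_mul_of_nonneg_left h2 (Real.exp_pos _).le)
    (fun x => by
      have h1 : ∑ k ∈ K, ‖(Polynomial.C ((Real.exp 1 : ℝ) : ℂ) * p k).eval (E 1 x)‖ ^ 2 =
          Real.exp 2 * S x := by
        rw [hS, Finset.mul_sum]
        refine Finset.sum_congr rfl fun k _ => ?_
        rw [Polynomial.eval_mul, Polynomial.eval_C, norm_mul, mul_pow, Complex.norm_real,
          Real.norm_eq_abs, sq_abs, ← Real.exp_nat_mul]
        norm_num
      rw [h1]
      refine mul_le_mul_of_nonneg_left ?_ (Real.exp_pos _).le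
      have h2 : S x / w x ≤ Real.exp (S x / w x - 1) := by
        have := Real.add_one_le_exp (S x / w x - 1)
        linarith
      calc S x = w x * (S x / w x) := by
            have := (hwpos x).ne'
            field_simp
        _ ≤ _ := mul_le_mul_of_nonneg_left h2 (hwpos x).le)
  have h1 : ∑ k ∈ K, ‖(Polynomial.C ((Real.exp 1 : ℝ) : ℂ) * p k).eval 0‖ ^ 2 =
      Real.exp 2 * C2 := by
    rw [hC2, Finset.mul_sum]
    refine Finset.sum_congr rfl fun k _ => ?_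
    rw [Polynomial.eval_mul, Polynomial.eval_C, norm_mul, mul_pow, Complex.norm_real,
      Real.norm_eq_abs, sq_abs, ← Real.exp_nat_mul]
    norm_num
  rw [h1, Real.log_mul (Real.exp_pos _).ne' hpos.ne', Real.log_exp] at key
  have h2 : ∀ x, Real.log (Real.exp 2 * (w x * Real.exp (S x / w x - 1))) =
      1 + Real.log (w x) + S x / w x := by
    intro x
    rw [Real.log_mul (Real.exp_pos _).ne' (mul_pos (hwpos x) (Real.exp_pos _)).ne', Real.log_exp,
      Real.log_mul (hwpos x).ne' (Real.exp_pos _).ne', Real.log_exp]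
    ring
  simp_rw [h2] at key
  have h3 : ∫ x in (0:ℝ)..1, (1 + Real.log (w x) + S x / w x) =
      1 + (∫ x in (0:ℝ)..1, Real.log (w x)) + ∫ x in (0:ℝ)..1, S x / w x := by
    have hc1 : Continuous fun x => 1 + Real.log (w x) := continuous_const.add hlog
    rw [intervalIntegral.integral_add (hc1.intervalIntegrable _ _)
      (hq.intervalIntegrable _ _), intervalIntegral.integral_add
      (continuous_const.intervalIntegrable _ _) (hlog.intervalIntegrable _ _)]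
    simp
  rw [h3] at key
  linarith

/-- The pointwise duality behind the weak certificates. -/
lemma div_le_of_dual {s : ℝ} (hs : 0 ≤ s) (h q f : ℂ) :
    ‖h‖ ^ 2 / (1 + s * ‖f‖ ^ 2) ≤
      ‖h - (Real.sqrt s : ℂ) * (starRingEnd ℂ) f * q‖ ^ 2 + ‖q‖ ^ 2 := by
  have hpos : 0 < 1 + s * ‖f‖ ^ 2 := by positivity
  rw [div_le_iff₀ hpos]
  set a := ‖h - (Real.sqrt s : ℂ) * (starRingEnd ℂ) f * q‖ with ha
  set b := Real.sqrt s * ‖f‖ with hb
  set c := ‖q‖ with hc
  have hb2 : b ^ 2 = s * ‖f‖ ^ 2 := by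
    rw [hb, mul_pow, Real.sq_sqrt hs]
  have h1 : ‖h‖ ≤ a + b * c := by
    have e : h = (h - (Real.sqrt s : ℂ) * (starRingEnd ℂ) f * q) +
        (Real.sqrt s : ℂ) * (starRingEnd ℂ) f * q := by ring
    calc ‖h‖ = ‖(h - (Real.sqrt s : ℂ) * (starRingEnd ℂ) f * q) +
        (Real.sqrt s : ℂ) * (starRingEnd ℂ) f * q‖ := by rw [← e]
      _ ≤ _ := norm_add_le _ _
      _ = a + b * c := by
        rw [norm_mul, norm_mul, RCLike.norm_conj, Complex.norm_real, Real.norm_eq_abs,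
          abs_of_nonneg (Real.sqrt_nonneg s)]
  have ha0 : 0 ≤ a := norm_nonneg _
  have hc0 : 0 ≤ c := norm_nonneg _
  have hb0 : 0 ≤ b := mul_nonneg (Real.sqrt_nonneg s) (norm_nonneg _)
  have h2 : ‖h‖ ^ 2 ≤ (a + b * c) ^ 2 := pow_le_pow_left₀ (norm_nonneg _) h1 2
  rw [← hb2]
  nlinarith [sq_nonneg (a * b - c)]

/-- **Weak certificates for one set.** -/
theorem log_le_of_weak (A : Finset ℤ) {s : ℝ} (hs : 0 ≤ s) {ε : ℝ} (hε : 0 ≤ ε) {ι : Type}
    (K : Finset ι) (p : ι → Polynomial ℂ)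
    (hI : ∫ x in (0:ℝ)..1, (∑ k ∈ K, ‖(p k).eval (E 1 x)‖ ^ 2) / (1 + s * ‖F A x‖ ^ 2) ≤ 1 + ε) :
    Real.log (∑ k ∈ K, ‖(p k).eval 0‖ ^ 2) ≤
      (∫ x in (0:ℝ)..1, Real.log (1 + s * ‖F A x‖ ^ 2)) + ε :=
  jensen_weak K p (fun x => 1 + s * ‖F A x‖ ^ 2) (by have := continuous_F A; fun_prop)
    (fun x => by
      have : 0 ≤ s * ‖F A x‖ ^ 2 := by positivity
      linarith) hε hI

/-- **Dual form of the weak certificates for one set.** -/
theorem log_le_of_dual (A : Finset ℤ) {s : ℝ} (hs : 0 ≤ s) {ε : ℝ} (hε : 0 ≤ ε) {ι : Type}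
    (K : Finset ι) (p : ι → Polynomial ℂ) (q : ι → ℝ → ℂ) (hq : ∀ k ∈ K, Continuous (q k))
    (hI : ∫ x in (0:ℝ)..1, ∑ k ∈ K, (‖(p k).eval (E 1 x) -
      (Real.sqrt s : ℂ) * (starRingEnd ℂ) (F A x) * q k x‖ ^ 2 + ‖q k x‖ ^ 2) ≤ 1 + ε) :
    Real.log (∑ k ∈ K, ‖(p k).eval 0‖ ^ 2) ≤
      (∫ x in (0:ℝ)..1, Real.log (1 + s * ‖F A x‖ ^ 2)) + ε := by
  refine log_le_of_weak A hs hε K p (le_trans ?_ hI)
  have hF := continuous_F A
  have hpos : ∀ x, 0 < 1 + s * ‖F A x‖ ^ 2 := fun x => by positivity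
  refine intervalIntegral.integral_mono_on zero_le_one ?_ ?_ fun x _ => ?_
  · refine Continuous.intervalIntegrable ?_ _ _
    refine Continuous.div (continuous_finsetSum _ fun k _ =>
      (continuous_eval_E (p k)).norm.pow 2) (by fun_prop) fun x => (hpos x).ne'
  · refine Continuous.intervalIntegrable ?_ _ _
    refine continuous_finsetSum _ fun k hk => ?_
    have h1 := continuous_eval_E (p k)
    have h2 := hq k hk
    have h3 : Continuous fun x => (starRingEnd ℂ) (F A x) := Complex.continuous_conj.comp hF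
    fun_prop
  · rw [Finset.sum_div]
    exact Finset.sum_le_sum fun k _ => div_le_of_dual hs _ _ _

/-- **The sharp inequality for `A` from weak certificates.** -/
theorem main_of_weak (A : Finset ℤ)
    (h : ∀ s : ℝ, 0 < s → ∀ ε : ℝ, 0 < ε → ∃ (K : Finset ℕ) (p : ℕ → Polynomial ℂ),
      ∫ x in (0:ℝ)..1, Real.log (1 + s * ‖F (Finset.Ico 0 (A.card : ℤ)) x‖ ^ 2) ≤
        Real.log (∑ k ∈ K, ‖(p k).eval 0‖ ^ 2) + ε ∧
      ∫ x in (0:ℝ)..1, (∑ k ∈ K, ‖(p k).eval (E 1 x)‖ ^ 2) / (1 + s * ‖F A x‖ ^ 2) ≤ 1 + ε)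
    (a d : ℤ) (hd : d ≠ 0) :
    (∫ θ in (0:ℝ)..1,
          ‖∑ k ∈ Finset.range A.card,
              Complex.exp (2 * (Real.pi : ℂ) * Complex.I * (((a + d * (k : ℤ) : ℤ)) : ℂ) * (θ : ℂ))‖)
        ≤ ∫ θ in (0:ℝ)..1,
          ‖∑ x ∈ A, Complex.exp (2 * (Real.pi : ℂ) * Complex.I * (x : ℂ) * (θ : ℂ))‖ := by
  apply main_of_log A _ a d hd
  intro s hs
  refine le_of_forall_pos_le_add fun ε hε => ?_
  obtain ⟨K, p, h1, h2⟩ := h s hs (ε / 2) (by positivity)
  have h3 := log_le_of_weak A hs.le (by positivity : (0:ℝ) ≤ ε / 2) K p h2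
  linarith

/-- **The sharp inequality for `A` from dual certificates.** -/
theorem main_of_dual (A : Finset ℤ)
    (h : ∀ s : ℝ, 0 < s → ∀ ε : ℝ, 0 < ε → ∃ (K : Finset ℕ) (p : ℕ → Polynomial ℂ)
      (q : ℕ → ℝ → ℂ), (∀ k ∈ K, Continuous (q k)) ∧
      ∫ x in (0:ℝ)..1, Real.log (1 + s * ‖F (Finset.Ico 0 (A.card : ℤ)) x‖ ^ 2) ≤
        Real.log (∑ k ∈ K, ‖(p k).eval 0‖ ^ 2) + ε ∧
      ∫ x in (0:ℝ)..1, ∑ k ∈ K, (‖(p k).eval (E 1 x) -
        (Real.sqrt s : ℂ) * (starRingEnd ℂ) (F A x) * q k x‖ ^ 2 + ‖q k x‖ ^ 2) ≤ 1 + ε)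
    (a d : ℤ) (hd : d ≠ 0) :
    (∫ θ in (0:ℝ)..1,
          ‖∑ k ∈ Finset.range A.card,
              Complex.exp (2 * (Real.pi : ℂ) * Complex.I * (((a + d * (k : ℤ) : ℤ)) : ℂ) * (θ : ℂ))‖)
        ≤ ∫ θ in (0:ℝ)..1,
          ‖∑ x ∈ A, Complex.exp (2 * (Real.pi : ℂ) * Complex.I * (x : ℂ) * (θ : ℂ))‖ := by
  apply main_of_log A _ a d hd
  intro s hs
  refine le_of_forall_pos_le_add fun ε hε => ?_
  obtain ⟨K, p, q, hq, h1, h2⟩ := h s hs (ε / 2) (by positivity)
  have h3 := log_le_of_dual A hs.le (by positivity : (0:ℝ) ≤ ε / 2) K p q hq h2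
  linarith

/-- sorted enumeration of `A` as a chain -/
lemma exists_gaps' (A : Finset ℤ) :
    ∃ (b : ℤ) (g : ℕ → ℕ), (∀ i, 1 ≤ g i) ∧
      A = (range A.card).image (fun j => b + ((∑ i ∈ range j, g i : ℕ) : ℤ)) ∧
      Set.InjOn (fun j => b + ((∑ i ∈ range j, g i : ℕ) : ℤ)) (range A.card : Set ℕ) := by
  classical
  set N := A.card with hN
  rcases Nat.eq_zero_or_pos N with h0 | hpos
  · refine ⟨0, fun _ => 1, fun _ => le_rfl, ?_, ?_⟩
    · rw [h0, range_zero, image_empty]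
      exact Finset.card_eq_zero.1 (hN ▸ h0)
    · rw [h0]; simp
  let e : Fin N ↪o ℤ := A.orderEmbOfFin hN.symm
  let b : ℤ := e ⟨0, hpos⟩
  let g : ℕ → ℕ := fun i => if h : i + 1 < N then
    (e ⟨i + 1, h⟩ - e ⟨i, (Nat.lt_succ_self i).trans h⟩).toNat else 1
  have hg1 : ∀ i, 1 ≤ g i := by
    intro i
    by_cases h : i + 1 < N
    · simp only [g, dif_pos h]
      have : e ⟨i, (Nat.lt_succ_self i).trans h⟩ < e ⟨i + 1, h⟩ :=
        e.strictMono (by simp [Fin.lt_def])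
      omega
    · simp only [g, dif_neg h]; exact le_rfl
  have hsum : ∀ j (hj : j < N), b + ((∑ i ∈ range j, g i : ℕ) : ℤ) = e ⟨j, hj⟩ := by
    intro j
    induction j with
    | zero => intro hj; simp [b]
    | succ j ih =>
      intro hj
      have hj' : j < N := (Nat.lt_succ_self j).trans hj
      have h1 := ih hj'
      rw [Finset.sum_range_succ]
      push_cast at h1 ⊢
      rw [← add_assoc, h1]
      simp only [g, dif_pos hj]
      have : e ⟨j, hj'⟩ < e ⟨j + 1, hj⟩ := e.strictMono (by simp [Fin.lt_def])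
      rw [Int.toNat_of_nonneg (by omega)]
      ring
  refine ⟨b, g, hg1, ?_, ?_⟩
  · ext a
    rw [mem_image]
    constructor
    · intro ha
      have : a ∈ Set.range e := by
        have := Finset.range_orderEmbOfFin A hN.symm
        rw [this]; exact ha
      obtain ⟨⟨j, hj⟩, rfl⟩ := this
      exact ⟨j, mem_range.2 hj, hsum j hj⟩
    · rintro ⟨j, hj, rfl⟩
      rw [hsum j (mem_range.1 hj)]
      exact Finset.orderEmbOfFin_mem A hN.symm _
  · intro i hi j hj hij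
    rw [mem_coe, mem_range] at hi hj
    simp only at hij
    rw [hsum i hi, hsum j hj] at hij
    have := e.injective hij
    simpa using this

/-- the restriction of a polynomial in the gap variables to the curve of a gap sequence -/
noncomputable def curvePoly (g : ℕ → ℕ) (f : MvPolynomial ℕ ℂ) : Polynomial ℂ :=
  MvPolynomial.aeval (fun i => (Polynomial.X : Polynomial ℂ) ^ g i) f

lemma eval_curvePoly (g : ℕ → ℕ) (f : MvPolynomial ℕ ℂ) (z : ℂ) :
    (curvePoly g f).eval z = MvPolynomial.eval (fun i => z ^ g i) f := by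
  unfold curvePoly
  have h1 := MvPolynomial.map_aeval (fun i => (Polynomial.X : Polynomial ℂ) ^ g i)
    (Polynomial.evalRingHom z) f
  simp only [Polynomial.coe_evalRingHom] at h1
  rw [h1]
  rw [MvPolynomial.coe_eval₂Hom]
  have h2 : (Polynomial.evalRingHom z).comp (algebraMap ℂ (Polynomial ℂ)) = RingHom.id ℂ := by
    ext c; simp
  rw [h2]
  simp only [Polynomial.eval_pow, Polynomial.eval_X]
  rfl

lemma eval_curvePoly_zero {g : ℕ → ℕ} (hg : ∀ i, 1 ≤ g i) (f : MvPolynomial ℕ ℂ) :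
    (curvePoly g f).eval 0 = MvPolynomial.constantCoeff f := by
  rw [eval_curvePoly g f 0]
  have : (fun i => (0:ℂ) ^ g i) = 0 := by
    funext i
    simp only [Pi.zero_apply]
    exact zero_pow (by have := hg i; omega)
  rw [this, MvPolynomial.constantCoeff_eq, ← MvPolynomial.constantCoeff_eq,
    ← MvPolynomial.eval_zero]

/-- the chain sum along the curve of the gap sequence of `A` -/
lemma exists_chain (A : Finset ℤ) : ∃ g : ℕ → ℕ, (∀ i, 1 ≤ g i) ∧
    ∀ x : ℝ, ‖Fx A.card (fun i => E 1 x ^ g i)‖ = ‖F A x‖ := by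
  obtain ⟨b, g, hg1, hA, hinj⟩ := exists_gaps' A
  refine ⟨g, hg1, fun x => ?_⟩
  have h1 : F A x = E b x * Fx A.card (fun i => E 1 x ^ g i) := by
    unfold F
    conv_lhs => rw [hA]
    rw [Finset.sum_image hinj]
    unfold Fx
    rw [Finset.mul_sum]
    refine Finset.sum_congr rfl fun j _ => ?_
    rw [E_add, Finset.prod_pow_eq_pow_sum, E_pow, one_mul]
  rw [h1, norm_mul, norm_E, one_mul]

/-- **Universal weak certificates.** Polynomials in the gap variables with `∫ ∑ |f|² / w ≤ 1 + ε`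
on the curve `x_i = e(g_i θ)` of every sequence of gaps `g_i ≥ 1`. -/
theorem main_of_weak_gaps (N : ℕ)
    (h : ∀ s : ℝ, 0 < s → ∀ ε : ℝ, 0 < ε → ∃ (K : Finset ℕ) (f : ℕ → MvPolynomial ℕ ℂ),
      ∫ x in (0:ℝ)..1, Real.log (1 + s * ‖F (Finset.Ico 0 (N : ℤ)) x‖ ^ 2) ≤
        Real.log (∑ k ∈ K, ‖MvPolynomial.constantCoeff (f k)‖ ^ 2) + ε ∧
      ∀ g : ℕ → ℕ, (∀ i, 1 ≤ g i) →
        ∫ x in (0:ℝ)..1, (∑ k ∈ K, ‖MvPolynomial.eval (fun i => E 1 x ^ g i) (f k)‖ ^ 2) /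
          (1 + s * ‖Fx N (fun i => E 1 x ^ g i)‖ ^ 2) ≤ 1 + ε)
    (A : Finset ℤ) (hA : A.card = N) (a d : ℤ) (hd : d ≠ 0) :
    (∫ θ in (0:ℝ)..1,
          ‖∑ k ∈ Finset.range A.card,
              Complex.exp (2 * (Real.pi : ℂ) * Complex.I * (((a + d * (k : ℤ) : ℤ)) : ℂ) * (θ : ℂ))‖)
        ≤ ∫ θ in (0:ℝ)..1,
          ‖∑ x ∈ A, Complex.exp (2 * (Real.pi : ℂ) * Complex.I * (x : ℂ) * (θ : ℂ))‖ := by
  apply main_of_weak A _ a d hd
  intro s hs ε hε
  obtain ⟨K, f, h1, h2⟩ := h s hs ε hε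
  obtain ⟨g, hg1, hgA⟩ := exists_chain A
  refine ⟨K, fun k => curvePoly g (f k), ?_, ?_⟩
  · simp only [eval_curvePoly_zero hg1, hA]
    exact h1
  · have h3 := h2 g hg1
    simp only [eval_curvePoly]
    rw [hA] at hgA
    simp_rw [hgA] at h3
    exact h3

/-- The ladder polynomial: `∑_{m < N} (G_{N-m-1} - G_{N-m}) ∑_{m ≤ l < N} x_m ⋯ x_{l-1}`. For
`x_i = z` it is `∑ G_k z ^ k` (if `G_N = 0`). -/
noncomputable def ladder (N : ℕ) (G : ℕ → ℝ) : MvPolynomial ℕ ℂ :=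
  ∑ m ∈ range N, MvPolynomial.C (((G (N - m - 1) - G (N - m) : ℝ)) : ℂ) *
    ∑ l ∈ Finset.Ico m N, ∏ i ∈ Finset.Ico m l, MvPolynomial.X i

lemma constantCoeff_ladder (N : ℕ) (G : ℕ → ℝ) :
    MvPolynomial.constantCoeff (ladder N G) = ((G 0 - G N : ℝ) : ℂ) := by
  unfold ladder
  rw [map_sum]
  have h1 : ∀ m ∈ range N, MvPolynomial.constantCoeff
      (MvPolynomial.C (((G (N - m - 1) - G (N - m) : ℝ)) : ℂ) *
        ∑ l ∈ Finset.Ico m N, ∏ i ∈ Finset.Ico m l, (MvPolynomial.X i : MvPolynomial ℕ ℂ)) =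
      ((G (N - m - 1) - G (N - m) : ℝ) : ℂ) := by
    intro m hm
    have hm' : m < N := Finset.mem_range.1 hm
    rw [map_mul, MvPolynomial.constantCoeff_C, map_sum]
    have h2 : ∑ l ∈ Finset.Ico m N, MvPolynomial.constantCoeff
        (∏ i ∈ Finset.Ico m l, (MvPolynomial.X i : MvPolynomial ℕ ℂ)) = 1 := by
      rw [Finset.sum_eq_single m]
      · simp
      · intro l hl hlm
        rw [Finset.mem_Ico] at hl
        rw [map_prod]
        exact Finset.prod_eq_zero (Finset.mem_Ico.2 ⟨le_rfl, by omega⟩)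
          (by simp)
      · intro hm2
        exact absurd (Finset.mem_Ico.2 ⟨le_rfl, hm'⟩) hm2
    rw [h2, mul_one]
  rw [Finset.sum_congr rfl h1, ← Complex.ofReal_sum]
  congr 1
  have h3 := Finset.sum_range_sub' (fun k => G k) N
  rw [← h3, ← Finset.sum_range_reflect]
  refine Finset.sum_congr rfl fun m hm => ?_
  have hm' : m < N := Finset.mem_range.1 hm
  have e1 : N - (N - 1 - m) - 1 = m := by omega
  have e2 : N - (N - 1 - m) = m + 1 := by omega
  rw [e1, e2]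

/-- **The ladder certificate.** If for the outer factor `G` of `1 + s |F_P|²` (with `n + 1` terms)
`∫ |ladder|² / (1 + s |F|²) ≤ 1` on the curves of all gap sequences, then the sharp inequality
holds for all sets with `n + 1` elements. -/
theorem main_of_ladder (n : ℕ)
    (hL : ∀ (s : ℝ) (G : ℕ → ℝ), 0 < s → 0 < G 0 → (∀ k, n < k → G k = 0) →
      (∀ z : ℂ, ‖z‖ ≤ 1 → ∑ l ∈ range (n + 1), (G l : ℂ) * z ^ l ≠ 0) →
      (∀ m, m ≤ n → ∑ l ∈ range (n + 1 - m), G l * G (l + m) =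
        (if m = 0 then 1 else 0) + s * ((n + 1 - m : ℕ) : ℝ)) →
      ∀ g : ℕ → ℕ, (∀ i, 1 ≤ g i) →
        ∫ x in (0:ℝ)..1, ‖MvPolynomial.eval (fun i => E 1 x ^ g i) (ladder (n + 1) G)‖ ^ 2 /
          (1 + s * ‖Fx (n + 1) (fun i => E 1 x ^ g i)‖ ^ 2) ≤ 1)
    (A : Finset ℤ) (hA : A.card = n + 1) (a d : ℤ) (hd : d ≠ 0) :
    (∫ θ in (0:ℝ)..1,
          ‖∑ k ∈ Finset.range A.card,
              Complex.exp (2 * (Real.pi : ℂ) * Complex.I * (((a + d * (k : ℤ) : ℤ)) : ℂ) * (θ : ℂ))‖)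
        ≤ ∫ θ in (0:ℝ)..1,
          ‖∑ x ∈ A, Complex.exp (2 * (Real.pi : ℂ) * Complex.I * (x : ℂ) * (θ : ℂ))‖ := by
  refine main_of_weak_gaps (n + 1) ?_ A hA a d hd
  intro s hs ε hε
  obtain ⟨G, hG0, hGn, hne, -, hac, hint⟩ := exists_outer_AP n hs.le
  refine ⟨{0}, fun _ => ladder (n + 1) G, ?_, ?_⟩
  · rw [Finset.sum_singleton, constantCoeff_ladder, hGn (n + 1) (by omega), sub_zero,
      Complex.norm_real, Real.norm_eq_abs, sq_abs, Real.log_pow]
    push_cast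
    rw [hint]
    linarith
  · intro g hg
    have := hL s G hs hG0 hGn hne hac g hg
    simp only [Finset.sum_singleton]
    linarith

end Pool.Agent.MP_d1728b_an.HL
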